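import Mathlib.Algebra.MvPolynomial.Equiv
import Mathlib.RingTheory.MvPolynomial.Localization
import Mathlib.RingTheory.Polynomial.GaussLemma
import Mathlib.RingTheory.Polynomial.UniqueFactorization
import Mathlib.RingTheory.PrincipalIdealDomain
import Mathlib.NumberTheory.NumberField.Basic

/-!
Elimination: a factor of a polynomial in several variables, and a relation in which one of the
variables is eliminated.
-/

set_option autoImplicit false
set_option linter.unusedSectionVars false

open Polynomial

namespace Pool.Agent.K4H5.EF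

section ring

variable {ι : Type} [DecidableEq ι] {R S : Type} [CommRing R] [CommRing S]

/-- isolate the variable `j` -/
noncomputable def ph (R : Type) [CommRing R] (j : ι) :
    MvPolynomial ι R ≃ₐ[R] (MvPolynomial {i // i ≠ j} R)[X] :=
  (MvPolynomial.renameEquiv R (Equiv.optionSubtypeNe j).symm).trans
    (MvPolynomial.optionEquivLeft R _)

theorem ph_C (j : ι) (a : R) : ph R j (MvPolynomial.C a) = C (MvPolynomial.C a) := by
  unfold ph
  rw [AlgEquiv.trans_apply, MvPolynomial.renameEquiv_apply, MvPolynomial.rename_C,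
    MvPolynomial.optionEquivLeft_C]

theorem ph_X_self (j : ι) : ph R j (MvPolynomial.X j) = X := by
  unfold ph
  rw [AlgEquiv.trans_apply, MvPolynomial.renameEquiv_apply, MvPolynomial.rename_X,
    Equiv.optionSubtypeNe_symm_self, MvPolynomial.optionEquivLeft_X_none]

theorem ph_X_ne (j i : ι) (h : i ≠ j) : ph R j (MvPolynomial.X i) = C (MvPolynomial.X ⟨i, h⟩) := by
  unfold ph
  rw [AlgEquiv.trans_apply, MvPolynomial.renameEquiv_apply, MvPolynomial.rename_X,
    Equiv.optionSubtypeNe_symm_of_ne h, MvPolynomial.optionEquivLeft_X_some]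

theorem ph_map (f : R →+* S) (j : ι) (P : MvPolynomial ι R) :
    ph S j (MvPolynomial.map f P) = (ph R j P).map (MvPolynomial.map f) := by
  have h : ((ph S j).toRingEquiv.toRingHom).comp (MvPolynomial.map f) =
      (mapRingHom (MvPolynomial.map f)).comp ((ph R j).toRingEquiv.toRingHom) := by
    apply MvPolynomial.ringHom_ext
    · intro a
      show ph S j (MvPolynomial.map f (MvPolynomial.C a)) =
        (ph R j (MvPolynomial.C a)).map (MvPolynomial.map f)
      rw [MvPolynomial.map_C, ph_C, ph_C, map_C, MvPolynomial.map_C]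
    · intro i
      show ph S j (MvPolynomial.map f (MvPolynomial.X i)) =
        (ph R j (MvPolynomial.X i)).map (MvPolynomial.map f)
      rw [MvPolynomial.map_X]
      by_cases h : i = j
      · subst h
        rw [ph_X_self, ph_X_self, map_X]
      · rw [ph_X_ne _ _ h, ph_X_ne _ _ h, map_C, MvPolynomial.map_X]
  exact RingHom.congr_fun h P

theorem ph_eval (j : ι) (P : MvPolynomial ι R) (b : ι → R) :
    MvPolynomial.eval b P =
      ((ph R j P).map (MvPolynomial.eval fun i : {i // i ≠ j} => b i)).eval (b j) := by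
  have h : (MvPolynomial.eval b) = ((evalRingHom (b j)).comp
      (mapRingHom (MvPolynomial.eval fun i : {i // i ≠ j} => b i))).comp
        ((ph R j).toRingEquiv.toRingHom) := by
    apply MvPolynomial.ringHom_ext
    · intro a
      show MvPolynomial.eval b (MvPolynomial.C a) =
        ((ph R j (MvPolynomial.C a)).map (MvPolynomial.eval fun i : {i // i ≠ j} => b i)).eval (b j)
      rw [ph_C, map_C, eval_C, MvPolynomial.eval_C, MvPolynomial.eval_C]
    · intro i
      show MvPolynomial.eval b (MvPolynomial.X i) =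
        ((ph R j (MvPolynomial.X i)).map (MvPolynomial.eval fun i : {i // i ≠ j} => b i)).eval (b j)
      by_cases h : i = j
      · subst h
        rw [ph_X_self, map_X, eval_X, MvPolynomial.eval_X]
      · rw [ph_X_ne _ _ h, map_C, eval_C, MvPolynomial.eval_X, MvPolynomial.eval_X]
  exact RingHom.congr_fun h P

/-- a nonconstant polynomial has a positive degree in some variable -/
theorem exists_deg (P : MvPolynomial ι R) (h : ∀ j, (ph R j P).natDegree = 0) :
    ∃ a, P = MvPolynomial.C a := by
  refine ⟨P.coeff 0, ?_⟩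
  have h1 : ∀ j, P.degreeOf j = 0 := by
    intro j
    have h2 := h j
    unfold ph at h2
    rw [AlgEquiv.trans_apply, MvPolynomial.renameEquiv_apply,
      MvPolynomial.natDegree_optionEquivLeft] at h2
    have h3 := MvPolynomial.degreeOf_rename_of_injective (p := P)
      (Equiv.optionSubtypeNe j).symm.injective j
    rw [Equiv.optionSubtypeNe_symm_self] at h3
    rw [← h3]
    exact h2
  apply MvPolynomial.ext
  intro m
  rw [MvPolynomial.coeff_C]
  by_cases hm : 0 = m
  · rw [if_pos hm, hm]
  · rw [if_neg hm]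
    by_contra hcon
    apply hm
    ext j
    have h2 := (MvPolynomial.degreeOf_le_iff (n := j) (f := P) (d := 0)).1 (h1 j).le m
      (MvPolynomial.mem_support_iff.2 hcon)
    simp only [Finsupp.coe_zero, Pi.zero_apply]
    omega

end ring

section field

variable {ι : Type} [Finite ι] [DecidableEq ι] {K : Type} [Field K]

theorem exists_factor {L : Type} [Field L] (f : MvPolynomial ι K →+* L) (D : MvPolynomial ι K)
    (hD : D ≠ 0) (h0 : f D = 0) : ∃ P, Irreducible P ∧ P ∣ D ∧ f P = 0 := by
  obtain ⟨s, hs, u, hu⟩ := WfDvdMonoid.exists_factors D hD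
  have h1 : f s.prod = 0 := by
    have h2 : f (s.prod * u) = 0 := by rw [hu]; exact h0
    rw [map_mul] at h2
    exact (mul_eq_zero.1 h2).resolve_right (u.isUnit.map f).ne_zero
  rw [map_multiset_prod, Multiset.prod_eq_zero_iff, Multiset.mem_map] at h1
  obtain ⟨P, hP, hP0⟩ := h1
  refine ⟨P, hs P hP, ?_, hP0⟩
  exact (Multiset.dvd_prod hP).trans ⟨u, hu.symm⟩

theorem bezout {B : Type} [CommRing B] [IsDomain B] [UniqueFactorizationMonoid B] (p s : B[X])
    (hp : Irreducible p) (hdeg : p.natDegree ≠ 0) (hps : ¬ p ∣ s) :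
    ∃ (u v : B[X]) (r : B), r ≠ 0 ∧ C r = u * p + v * s := by
  classical
  have : NormalizedGCDMonoid B := Classical.choice inferInstance
  set F := FractionRing B
  have hprim : p.IsPrimitive := hp.isPrimitive hdeg
  have hirr : Irreducible (p.map (algebraMap B F)) :=
    (hprim.irreducible_iff_irreducible_map_fraction_map (K := F)).1 hp
  have hnd : ¬ p.map (algebraMap B F) ∣ s.map (algebraMap B F) := fun h =>
    hps (hprim.dvd_of_fraction_map_dvd_fraction_map (K := F) h)
  obtain ⟨u, v, huv⟩ := (Irreducible.coprime_iff_not_dvd hirr).2 hnd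
  obtain ⟨c, c0, hc⟩ := IsLocalization.integerNormalization_spec (nonZeroDivisors B) u
  obtain ⟨d, d0, hd⟩ := IsLocalization.integerNormalization_spec (nonZeroDivisors B) v
  rw [Algebra.smul_def, algebraMap_apply] at hc hd
  rw [mem_nonZeroDivisors_iff_ne_zero] at c0 d0
  refine ⟨C d * IsLocalization.integerNormalization (nonZeroDivisors B) u,
    C c * IsLocalization.integerNormalization (nonZeroDivisors B) v, c * d,
    mul_ne_zero c0 d0, ?_⟩
  apply map_injective (algebraMap B F) (IsFractionRing.injective _ _)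
  rw [Polynomial.map_add, Polynomial.map_mul, Polynomial.map_mul, Polynomial.map_mul,
    Polynomial.map_mul, hc, hd, map_C, map_C, map_C, map_mul, C_mul]
  linear_combination (-(C (algebraMap B F c) * C (algebraMap B F d))) * huv

/-- elimination -/
theorem elim_K {L : Type} [Field L] (f : MvPolynomial ι K →+* L) (D S : MvPolynomial ι K)
    (hD : D ≠ 0) (h0 : f D = 0) (hS : f S ≠ 0) :
    ∃ (P Q U V r : MvPolynomial ι K) (j : ι), D = P * Q ∧ (ph K j P).natDegree ≠ 0 ∧ r ≠ 0 ∧
      (ph K j r).natDegree = 0 ∧ r = U * P + V * S := by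
  obtain ⟨P, hP, ⟨Q, hQ⟩, hP0⟩ := exists_factor f D hD h0
  have hPS : ¬ P ∣ S := by
    rintro ⟨T, rfl⟩
    rw [map_mul, hP0, zero_mul] at hS
    exact hS rfl
  obtain ⟨j, hj⟩ : ∃ j, (ph K j P).natDegree ≠ 0 := by
    by_contra hcon
    push Not at hcon
    obtain ⟨a, ha⟩ := exists_deg P hcon
    rw [ha] at hP0 hP
    have ha0 : a ≠ 0 := by
      rintro rfl
      rw [map_zero] at hP
      exact hP.ne_zero rfl
    exact hP.not_isUnit ((IsUnit.mk0 a ha0).map MvPolynomial.C)
  obtain ⟨u, v, r, hr, huv⟩ := bezout (ph K j P) (ph K j S)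
    ((MulEquiv.irreducible_iff (ph K j).toMulEquiv).2 hP) hj (fun h => hPS (by
      obtain ⟨T, hT⟩ := h
      refine ⟨(ph K j).symm T, ?_⟩
      apply (ph K j).injective
      rw [map_mul, AlgEquiv.apply_symm_apply]
      exact hT))
  refine ⟨P, Q, (ph K j).symm u, (ph K j).symm v, (ph K j).symm (C r), j, hQ, hj, ?_, ?_, ?_⟩
  · intro h
    have h1 := congrArg (ph K j) h
    rw [AlgEquiv.apply_symm_apply, map_zero] at h1
    exact hr (C_eq_zero.1 h1)
  · rw [AlgEquiv.apply_symm_apply, natDegree_C]
  · apply (ph K j).injective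
    rw [AlgEquiv.apply_symm_apply, map_add, map_mul, map_mul, AlgEquiv.apply_symm_apply,
      AlgEquiv.apply_symm_apply]
    exact huv

end field

section frac

variable {ι : Type} [Finite ι] [DecidableEq ι] {R : Type} [CommRing R] [IsDomain R]

attribute [local instance] MvPolynomial.algebraMvPolynomial

/-- elimination, over an integral domain -/
theorem elim_R (K : Type) [Field K] [Algebra R K] [IsFractionRing R K] {L : Type} [Field L]
    (g : K →+* L) (b₀ : ι → L) (D S : MvPolynomial ι R)
    (hD : D ≠ 0) (h0 : MvPolynomial.eval₂Hom (g.comp (algebraMap R K)) b₀ D = 0)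
    (hS : MvPolynomial.eval₂Hom (g.comp (algebraMap R K)) b₀ S ≠ 0) :
    ∃ (P Q U V r : MvPolynomial ι R) (k : R) (j : ι), k ≠ 0 ∧ MvPolynomial.C k * D = P * Q ∧
      (ph R j P).natDegree ≠ 0 ∧ r ≠ 0 ∧ (ph R j r).natDegree = 0 ∧ r = U * P + V * S := by
  classical
  set m : MvPolynomial ι R →+* MvPolynomial ι K := MvPolynomial.map (algebraMap R K) with hm
  have hinj : Function.Injective m :=
    MvPolynomial.map_injective _ (IsFractionRing.injective R K)
  have hcomp : ∀ P : MvPolynomial ι R, MvPolynomial.eval₂Hom g b₀ (m P) =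
      MvPolynomial.eval₂Hom (g.comp (algebraMap R K)) b₀ P := by
    intro P
    rw [hm, MvPolynomial.coe_eval₂Hom, MvPolynomial.eval₂_map, MvPolynomial.coe_eval₂Hom]
  obtain ⟨P, Q, U, V, r, j, h1, h2, h3, h4, h5⟩ := elim_K (MvPolynomial.eval₂Hom g b₀) (m D) (m S)
    (fun h => hD (hinj (by rw [h, map_zero]))) (by rw [hcomp]; exact h0)
    (by rw [hcomp]; exact hS)
  obtain ⟨⟨c, hc⟩, hint⟩ := IsLocalization.exist_integer_multiples_of_finite
    ((nonZeroDivisors R).map (MvPolynomial.C (σ := ι))) (S := MvPolynomial ι K)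
    (![P, Q, U, V, r])
  obtain ⟨k, hk, rfl⟩ := hc
  have hk0 : k ≠ 0 := nonZeroDivisors.ne_zero hk
  have hk0' : algebraMap R K k ≠ 0 := fun h => hk0 (IsFractionRing.injective R K (by rw [h, map_zero]))
  have hsm : ∀ x : MvPolynomial ι K, (MvPolynomial.C k : MvPolynomial ι R) • x =
      MvPolynomial.C (algebraMap R K k) * x := by
    intro x
    rw [Algebra.smul_def, MvPolynomial.algebraMap_def, MvPolynomial.map_C]
  obtain ⟨P', hP'⟩ := hint 0
  obtain ⟨Q', hQ'⟩ := hint 1
  obtain ⟨U', hU'⟩ := hint 2
  obtain ⟨V', hV'⟩ := hint 3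
  obtain ⟨r', hr'⟩ := hint 4
  have hP : m P' = MvPolynomial.C (algebraMap R K k) * P := by rw [← hsm]; exact hP'
  have hQ : m Q' = MvPolynomial.C (algebraMap R K k) * Q := by rw [← hsm]; exact hQ'
  have hU : m U' = MvPolynomial.C (algebraMap R K k) * U := by rw [← hsm]; exact hU'
  have hV : m V' = MvPolynomial.C (algebraMap R K k) * V := by rw [← hsm]; exact hV'
  have hr : m r' = MvPolynomial.C (algebraMap R K k) * r := by rw [← hsm]; exact hr'
  have hmC : ∀ a : R, m (MvPolynomial.C a) = MvPolynomial.C (algebraMap R K a) := fun a => by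
    rw [hm, MvPolynomial.map_C]
  have hnd : ∀ x : MvPolynomial ι R, (ph K j (m x)).natDegree = (ph R j x).natDegree := by
    intro x
    rw [hm, ph_map, natDegree_map_eq_of_injective
      (MvPolynomial.map_injective _ (IsFractionRing.injective R K))]
  have hndC : ∀ x : MvPolynomial ι K, (ph K j (MvPolynomial.C (algebraMap R K k) * x)).natDegree =
      (ph K j x).natDegree := by
    intro x
    rw [map_mul, ph_C, natDegree_C_mul]
    rwa [Ne, MvPolynomial.C_eq_zero]
  have hCk : (MvPolynomial.C (algebraMap R K k) : MvPolynomial ι K) ≠ 0 := by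
    rwa [Ne, MvPolynomial.C_eq_zero]
  refine ⟨P', Q', U', MvPolynomial.C k * V', MvPolynomial.C k * r', k ^ 2, j, pow_ne_zero _ hk0,
    ?_, ?_, ?_, ?_, ?_⟩
  · apply hinj
    rw [map_mul, map_mul, hP, hQ, hmC, h1, map_pow, map_pow]
    ring
  · rw [← hnd, hP, hndC]
    exact h2
  · intro h
    have h6 := congrArg m h
    rw [map_mul, hmC, hr, map_zero] at h6
    exact (mul_ne_zero hCk (mul_ne_zero hCk h3)) h6
  · rw [← hnd, map_mul, hmC, hr, hndC, hndC]
    exact h4
  · apply hinj
    rw [map_add, map_mul, map_mul, map_mul, map_mul, hmC, hr, hU, hV, hP, h5]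
    ring

end frac

end Pool.Agent.K4H5.EF
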