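import Pool.Agent.K4H5.PC.Gen
import Pool.Agent.K4H5.HF.Cnt
import Pool.Agent.K4H5.EF.Alg

/-!
Counting: values of a polynomial in several variables over the integers of a number field with a
small radical.
-/

set_option autoImplicit false
set_option linter.unusedSectionVars false

open NumberField IsDedekindDomain Polynomial Finset

namespace Pool.Agent.K4H5.EF

open Pool.Agent.K4H5.HF (box mem_box card_box box_size box_shift em Nm Nm_le Nm_ne em_inj nv
  count_rad)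
open Pool.Agent.K4H5.PC (Sz shi avg)

variable {K : Type} [Field K] [NumberField K] {ι : Type}

/-- bounds for the conjugates of the values -/
theorem ev_bound (P : MvPolynomial ι (𝓞 K)) : ∃ (B : ℝ) (A : ℕ), 0 ≤ B ∧
    ∀ (b : ι → 𝓞 K) (M : ℝ), 1 ≤ M → Sz M b → ∀ σ : K →+* ℂ,
      ‖em σ (MvPolynomial.eval b P)‖ ≤ B * M ^ A := by
  classical
  induction P using MvPolynomial.induction_on with
  | C a =>
    refine ⟨∑ σ : K →+* ℂ, ‖em σ a‖, 0, sum_nonneg fun _ _ => norm_nonneg _,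
      fun b M _ _ σ => ?_⟩
    rw [MvPolynomial.eval_C, pow_zero, mul_one]
    exact single_le_sum (f := fun σ : K →+* ℂ => ‖em σ a‖) (fun _ _ => norm_nonneg _)
      (mem_univ σ)
  | add p q hp hq =>
    obtain ⟨B₁, A₁, hB₁, h1⟩ := hp
    obtain ⟨B₂, A₂, hB₂, h2⟩ := hq
    refine ⟨B₁ + B₂, A₁ + A₂, by positivity, fun x M hM hx σ => ?_⟩
    rw [map_add, map_add]
    refine (norm_add_le _ _).trans ((add_le_add (h1 x M hM hx σ) (h2 x M hM hx σ)).trans ?_)
    have e1 : M ^ A₁ ≤ M ^ (A₁ + A₂) := pow_le_pow_right₀ hM (by omega)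
    have e2 : M ^ A₂ ≤ M ^ (A₁ + A₂) := pow_le_pow_right₀ hM (by omega)
    nlinarith [mul_le_mul_of_nonneg_left e1 hB₁, mul_le_mul_of_nonneg_left e2 hB₂]
  | mul_X p i hp =>
    obtain ⟨B, A, hB, h⟩ := hp
    refine ⟨B, A + 1, hB, fun x M hM hx σ => ?_⟩
    rw [map_mul, map_mul, norm_mul, pow_succ, ← mul_assoc, MvPolynomial.eval_X]
    have h0 : (0 : ℝ) ≤ M := by linarith
    exact mul_le_mul (h x M hM hx σ) (hx i σ) (norm_nonneg _) (by positivity)

theorem ev_nm (P : MvPolynomial ι (𝓞 K)) : ∃ (B : ℝ) (A : ℕ), 0 ≤ B ∧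
    ∀ (b : ι → 𝓞 K) (M : ℝ), 1 ≤ M → Sz M b →
      (Nm (MvPolynomial.eval b P) : ℝ) ≤ (B * M ^ A) ^ Module.finrank ℚ K := by
  obtain ⟨B, A, hB, h⟩ := ev_bound P
  exact ⟨B, A, hB, fun b M hM hb => Nm_le fun σ => h b M hM hb σ⟩

/-- the norm of a value, in the form `U * H ^ E` -/
theorem ev_nm' (P : MvPolynomial ι (𝓞 K)) (C₀ : ℝ) (hC₀ : 1 ≤ C₀) : ∃ U E : ℕ, 1 ≤ U ∧
    ∀ H : ℕ, 1 ≤ H → ∀ b : ι → 𝓞 K, Sz (C₀ * H) b → Nm (MvPolynomial.eval b P) ≤ U * H ^ E := by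
  obtain ⟨B, A, hB, h⟩ := ev_nm P
  set d := Module.finrank ℚ K with hd
  refine ⟨⌈(B * C₀ ^ A) ^ d⌉₊ + 1, A * d, by omega, fun H hH b hb => ?_⟩
  have hHR : (1 : ℝ) ≤ H := by exact_mod_cast hH
  have h1 := h b (C₀ * H) (by nlinarith) hb
  have h2 : ((Nm (MvPolynomial.eval b P) : ℕ) : ℝ) ≤
      (((⌈(B * C₀ ^ A) ^ d⌉₊ + 1) * H ^ (A * d) : ℕ) : ℝ) := by
    refine h1.trans ?_
    have h3 : (B * (C₀ * H) ^ A) ^ d = (B * C₀ ^ A) ^ d * (H : ℝ) ^ (A * d) := by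
      rw [mul_pow C₀ (H : ℝ), ← mul_assoc, mul_pow, ← pow_mul]
    rw [h3]
    push_cast
    refine mul_le_mul_of_nonneg_right ?_ (by positivity)
    exact (Nat.le_ceil _).trans (by linarith)
  exact_mod_cast h2

section line

variable [DecidableEq ι]

theorem ev_shi {R : Type} [CommRing R] (j : ι) (P : MvPolynomial ι R) (b : ι → R) (t : R) :
    MvPolynomial.eval (shi j b t) P =
      ((ph R j P).map (MvPolynomial.eval fun i : {i // i ≠ j} => b i)).eval (b j + t) := by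
  rw [ph_eval j]
  have h1 : (fun i : {i // i ≠ j} => shi j b t i) = fun i : {i // i ≠ j} => b i := by
    funext i
    unfold shi
    rw [if_neg i.2, add_zero]
  have h2 : shi j b t j = b j + t := by
    unfold shi
    rw [if_pos rfl]
  rw [h1, h2]

theorem ev_inv {R : Type} [CommRing R] (j : ι) (m : MvPolynomial ι R)
    (hm : (ph R j m).natDegree = 0) (b : ι → R) (t : R) :
    MvPolynomial.eval (shi j b t) m = MvPolynomial.eval b m := by
  rw [ev_shi, ph_eval j m b, eq_C_of_natDegree_eq_zero hm, map_C, eval_C, eval_C]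

/-- few translates have a value of given norm -/
theorem fib (P : MvPolynomial ι (𝓞 K)) (j : ι) (hdeg : (ph (𝓞 K) j P).natDegree ≠ 0)
    (b : ι → 𝓞 K) (hl : MvPolynomial.eval (fun i : {i // i ≠ j} => b i)
      (ph (𝓞 K) j P).leadingCoeff ≠ 0) (w : ℕ)
    (Z : Finset ℤ) (hZ : ∀ t ∈ Z, Nm (MvPolynomial.eval (shi j b (t : 𝓞 K)) P) = w) :
    Z.card ≤ 2 * (Module.finrank ℚ K * (ph (𝓞 K) j P).natDegree) := by
  classical
  set D := (ph (𝓞 K) j P).natDegree with hD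
  set q : (𝓞 K)[X] := (ph (𝓞 K) j P).map (MvPolynomial.eval fun i : {i // i ≠ j} => b i) with hq
  have hqD : q.natDegree = D := natDegree_map_of_leadingCoeff_ne_zero _ hl
  have hdeg0 : ∀ σ : K →+* ℂ, ((q.map (em σ)).comp (X + C (em σ (b j)))).natDegree = D :=
    fun σ => by
      rw [natDegree_comp, natDegree_X_add_C, mul_one, natDegree_map_eq_of_injective (em_inj σ),
        hqD]
  have hne0 : ∀ σ : K →+* ℂ, (q.map (em σ)).comp (X + C (em σ (b j))) ≠ 0 := fun σ h => by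
    have := hdeg0 σ
    rw [h, natDegree_zero] at this
    exact hdeg this.symm
  set Pt : ℂ[X] := ∏ σ : K →+* ℂ, (q.map (em σ)).comp (X + C (em σ (b j))) with hP
  have hdegP : Pt.natDegree = Module.finrank ℚ K * D := by
    rw [hP, natDegree_prod _ _ fun σ _ => hne0 σ,
      Finset.sum_congr rfl fun σ _ => hdeg0 σ, Finset.sum_const, Finset.card_univ,
      Embeddings.card, smul_eq_mul]
  have hpos : 0 < Module.finrank ℚ K * D :=
    Nat.mul_pos Module.finrank_pos (Nat.pos_of_ne_zero hdeg)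
  have hev : ∀ t : ℤ, Pt.eval (t : ℂ) =
      ((Algebra.norm ℤ (MvPolynomial.eval (shi j b (t : 𝓞 K)) P) : ℤ) : ℂ) := by
    intro t
    set x := MvPolynomial.eval (shi j b (t : 𝓞 K)) P with hx
    have h2 : ((Algebra.norm ℤ x : ℤ) : ℚ) = Algebra.norm ℚ ((x : 𝓞 K) : K) :=
      Algebra.coe_norm_int _
    have h3 : ((Algebra.norm ℤ x : ℤ) : ℂ) = algebraMap ℚ ℂ (Algebra.norm ℚ ((x : 𝓞 K) : K)) := by
      rw [← h2]
      simp
    rw [h3, Algebra.norm_eq_prod_embeddings ℚ ℂ, hP, eval_prod]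
    refine Fintype.prod_equiv (RingHom.equivRatAlgHom K ℂ) _ _ ?_
    intro σ
    rw [eval_comp, eval_add, eval_X, eval_C]
    have h4 : (t : ℂ) + em σ (b j) = em σ (b j + (t : 𝓞 K)) := by
      rw [map_add, map_intCast, add_comm]
    rw [h4, eval_map, eval₂_at_apply, hx, ev_shi]
    rfl
  have hsub : ∀ s : ℂ, (Pt - C s).natDegree = Module.finrank ℚ K * D := fun s => by
    rw [natDegree_sub_C, hdegP]
  have hne : ∀ s : ℂ, Pt - C s ≠ 0 := fun s h => by
    have := hsub s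
    rw [h, natDegree_zero] at this
    omega
  have hmem : Z.image (fun t : ℤ => (t : ℂ)) ⊆
      (Pt - C (w : ℂ)).roots.toFinset ∪ (Pt - C (-(w : ℂ))).roots.toFinset := by
    intro z hz
    rw [Finset.mem_image] at hz
    obtain ⟨t, ht, rfl⟩ := hz
    have h1 := hZ t ht
    unfold Nm at h1
    rw [Ideal.absNorm_span_singleton] at h1
    rw [Finset.mem_union, Multiset.mem_toFinset, Multiset.mem_toFinset, mem_roots (hne _),
      mem_roots (hne _), IsRoot, IsRoot, eval_sub, eval_sub, eval_C, eval_C, hev]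
    rcases Int.natAbs_eq (Algebra.norm ℤ (MvPolynomial.eval (shi j b (t : 𝓞 K)) P)) with h2 | h2
    · left
      rw [h2, h1]
      simp
    · right
      rw [h2, h1]
      simp
  have h1 := Finset.card_le_card hmem
  rw [Finset.card_image_of_injective _ Int.cast_injective] at h1
  refine h1.trans ((Finset.card_union_le _ _).trans ?_)
  have h2 : ∀ s : ℂ, (Pt - C s).roots.toFinset.card ≤ Module.finrank ℚ K * D := fun s =>
    (Multiset.toFinset_card_le _).trans ((card_roots' _).trans (hsub s).le)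
  have h3 := h2 (w : ℂ)
  have h4 := h2 (-(w : ℂ))
  omega

theorem Sz_shi {C₀ : ℝ} {H : ℕ} {b : ι → 𝓞 K} (hb : Sz (C₀ * H) b) (j : ι) {t : ℤ}
    (ht : t ∈ Icc (-(H : ℤ)) H) : Sz ((C₀ + 1) * H) (shi j b (t : 𝓞 K)) := by
  intro i σ
  unfold shi
  rw [mem_Icc] at ht
  have h1 : |(t : ℝ)| ≤ H := abs_le.2 ⟨by exact_mod_cast ht.1, by exact_mod_cast ht.2⟩
  have h0 : (0 : ℝ) ≤ H := Nat.cast_nonneg _
  split_ifs with hi
  · have h2 : (((b i + (t : 𝓞 K) : 𝓞 K)) : K) = (b i : K) + (t : K) := by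
      have h3 := map_add (algebraMap (𝓞 K) K) (b i) (t : 𝓞 K)
      rw [map_intCast (algebraMap (𝓞 K) K) t] at h3
      exact h3
    rw [h2, map_add, map_intCast]
    refine (norm_add_le _ _).trans ?_
    rw [Complex.norm_intCast, add_mul, one_mul]
    exact add_le_add (hb i σ) h1
  · rw [add_zero]
    refine (hb i σ).trans ?_
    nlinarith

/-- few translates have a value with a small radical -/
theorem rad_count (P m : MvPolynomial ι (𝓞 K)) (j : ι)
    (hdeg : (ph (𝓞 K) j P).natDegree ≠ 0) (C₀ : ℝ)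
    (hC₀ : 1 ≤ C₀) (ε δ : ℝ) (hδε : δ < ε) (hδ1 : δ ≤ 1) : ∃ C : ℝ, 0 < C ∧
    ∀ H : ℕ, 1 ≤ H → ∀ b : ι → 𝓞 K, Sz (C₀ * H) b → MvPolynomial.eval b m ≠ 0 →
      MvPolynomial.eval (fun i : {i // i ≠ j} => b i) (ph (𝓞 K) j P).leadingCoeff ≠ 0 →
      ∀ Z : Finset ℤ,
      (∀ t ∈ Z, t ∈ Icc (-(H : ℤ)) H ∧ (MvPolynomial.eval (shi j b (t : 𝓞 K)) P = 0 ∨
        ((∏ p ∈ (Nm (MvPolynomial.eval (shi j b (t : 𝓞 K)) P)).primeFactors \
          (Nm (MvPolynomial.eval b m)).primeFactors, p : ℕ) : ℝ) ≤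
            (H : ℝ) ^ (1 - ε))) → (Z.card : ℝ) ≤ C * (H : ℝ) ^ (1 - δ) := by
  classical
  obtain ⟨U₁, E₁, hU₁, hb₁⟩ := ev_nm' P (C₀ + 1) (by linarith)
  obtain ⟨U₂, E₂, hU₂, hb₂⟩ := ev_nm' m C₀ hC₀
  set d := Module.finrank ℚ K with hd
  set D' := (ph (𝓞 K) j P).natDegree with hD'
  have hd0 : 0 < d := Module.finrank_pos
  set U : ℕ := U₁ + U₂ with hU
  set E : ℕ := E₁ + E₂ + 1 with hE
  have hE0 : (0 : ℝ) < E := by
    have : 0 < E := by omega
    exact_mod_cast this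
  set ε₁ : ℝ := (ε - δ) / E with hε₁
  have hε₁0 : 0 < ε₁ := div_pos (by linarith) hE0
  obtain ⟨D, hD, hr⟩ := count_rad hε₁0
  refine ⟨2 * (d * D') * (1 + D * (U : ℝ) ^ ε₁) + 1, by positivity, ?_⟩
  intro H hH b hb hbm hl Z hZ
  have hHR : (1 : ℝ) ≤ H := by exact_mod_cast hH
  have hH0 : (0 : ℝ) < H := by linarith
  set m' : ℕ := Nm (MvPolynomial.eval b m) with hm
  have hm0 : m' ≠ 0 := Nm_ne hbm
  set X : ℕ := U * H ^ E with hX
  have hUp : 1 ≤ U := by omega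
  have hX1 : 1 ≤ X := Nat.mul_pos hUp (pow_pos (by omega) _)
  have hpowH : ∀ a : ℕ, a ≤ E → H ^ a ≤ H ^ E := fun a ha => Nat.pow_le_pow_right (by omega) ha
  have hmX : m' ≤ X := (hb₂ H hH b hb).trans (Nat.mul_le_mul (by omega) (hpowH _ (by omega)))
  have hDX : ∀ t ∈ Icc (-(H : ℤ)) H, Nm (MvPolynomial.eval (shi j b (t : 𝓞 K)) P) ≤ X := by
    intro t ht
    exact (hb₁ H hH _ (Sz_shi hb j ht)).trans (Nat.mul_le_mul (by omega) (hpowH _ (by omega)))
  set R : ℝ := (H : ℝ) ^ (1 - ε) with hR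
  have hR0 : 0 ≤ R := by positivity
  set W := (Icc 1 X).filter fun w : ℕ =>
    ((∏ p ∈ w.primeFactors \ m'.primeFactors, p : ℕ) : ℝ) ≤ R with hW
  have hWc := hr X m' hX1 (Nat.one_le_iff_ne_zero.2 hm0) hmX R hR0
  have hmaps : ∀ t ∈ Z, Nm (MvPolynomial.eval (shi j b (t : 𝓞 K)) P) ∈ insert 0 W := by
    intro t ht
    obtain ⟨h1, h2⟩ := hZ t ht
    rw [mem_insert]
    by_cases h0 : MvPolynomial.eval (shi j b (t : 𝓞 K)) P = 0
    · left
      rw [h0]
      unfold Nm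
      simp
    · right
      rcases h2 with h2 | h2
      · exact absurd h2 h0
      · rw [hW, mem_filter, mem_Icc]
        exact ⟨⟨Nat.one_le_iff_ne_zero.2 (Nm_ne h0), hDX t h1⟩, h2⟩
  have hcard := Finset.card_le_mul_card_image_of_maps_to hmaps (2 * (d * D'))
    (fun w _ => fib P j hdeg b hl w _ fun t ht => (mem_filter.1 ht).2)
  have h3 : (Z.card : ℝ) ≤ 2 * (d * D') * (1 + W.card) := by
    have h4 : (insert 0 W).card ≤ 1 + W.card := by
      rw [add_comm]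
      exact Finset.card_insert_le _ _
    have h5 := hcard.trans (Nat.mul_le_mul_left (2 * (d * D')) h4)
    exact_mod_cast h5
  refine h3.trans ?_
  have hXε : (X : ℝ) ^ ε₁ = (U : ℝ) ^ ε₁ * (H : ℝ) ^ (ε - δ) := by
    rw [hX]
    push_cast
    rw [Real.mul_rpow (by positivity) (by positivity), ← Real.rpow_natCast, ← Real.rpow_mul hH0.le]
    congr 2
    rw [hε₁]
    field_simp
  have h6 : (W.card : ℝ) ≤ D * (U : ℝ) ^ ε₁ * (H : ℝ) ^ (1 - δ) := by
    refine hWc.trans (le_of_eq ?_)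
    rw [hXε, hR]
    have h7 : (H : ℝ) ^ (1 - δ) = (H : ℝ) ^ (ε - δ) * (H : ℝ) ^ (1 - ε) := by
      rw [← Real.rpow_add hH0]
      congr 1
      ring
    rw [h7]
    ring
  have h8 : (1 : ℝ) ≤ (H : ℝ) ^ (1 - δ) := Real.one_le_rpow hHR (by linarith)
  have h9 : (0 : ℝ) ≤ 2 * (d * D') := by positivity
  have h10 : (1 : ℝ) + W.card ≤ (1 + D * (U : ℝ) ^ ε₁) * (H : ℝ) ^ (1 - δ) := by
    rw [add_mul, one_mul]
    linarith
  calc 2 * (d * D') * (1 + (W.card : ℝ))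
      ≤ 2 * (d * D') * ((1 + D * (U : ℝ) ^ ε₁) * (H : ℝ) ^ (1 - δ)) :=
        mul_le_mul_of_nonneg_left h10 h9
    _ ≤ (2 * (d * D') * (1 + D * (U : ℝ) ^ ε₁) + 1) * (H : ℝ) ^ (1 - δ) := by
        nlinarith

end line

section box

/-- a nonzero polynomial has few zeros in a box -/
theorem mv_zeros {A : Type} [CommRing A] [IsDomain A] [DecidableEq A] [Fintype ι] [DecidableEq ι]
    (Q : MvPolynomial ι A) (hQ0 : Q ≠ 0) :
    ∃ τ : ℕ, ∀ S : Finset A, S.Nonempty →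
      ((Fintype.piFinset fun _ : ι => S).filter fun c => MvPolynomial.eval c Q = 0).card *
        S.card ≤ τ * S.card ^ Fintype.card ι := by
  classical
  set e := Fintype.equivFin ι with he
  set Q' : MvPolynomial (Fin (Fintype.card ι)) A := MvPolynomial.rename e Q with hQ'
  have hQ'0 : Q' ≠ 0 := by
    rw [hQ', Ne, ← map_zero (MvPolynomial.rename e)]
    intro h
    exact hQ0 (MvPolynomial.rename_injective _ e.injective h)
  refine ⟨Q'.totalDegree, fun S hS => ?_⟩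
  have h1 := MvPolynomial.schwartz_zippel_totalDegree hQ'0 S
  have h2 : ((Fintype.piFinset fun _ : ι => S).filter fun c => MvPolynomial.eval c Q = 0).card =
      ((Fintype.piFinset fun _ : Fin (Fintype.card ι) => S).filter
        fun c => MvPolynomial.eval c Q' = 0).card := by
    refine card_bij (fun c _ => c ∘ e.symm) ?_ ?_ ?_
    · intro c hc
      rw [mem_filter, Fintype.mem_piFinset] at hc ⊢
      refine ⟨fun i => hc.1 _, ?_⟩
      rw [hQ', MvPolynomial.eval_rename, Function.comp_assoc, e.symm_comp_self,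
        Function.comp_id]
      exact hc.2
    · intro c _ c' _ h
      funext i
      have := congrFun h (e i)
      simpa using this
    · intro c hc
      rw [mem_filter, Fintype.mem_piFinset] at hc
      refine ⟨c ∘ e, ?_, ?_⟩
      · rw [mem_filter, Fintype.mem_piFinset]
        refine ⟨fun i => hc.1 _, ?_⟩
        have h3 := hc.2
        rw [hQ', MvPolynomial.eval_rename] at h3
        exact h3
      · funext i
        simp
  rw [h2]
  have hS0 : (0 : ℚ≥0) < S.card := by exact_mod_cast hS.card_pos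
  rw [div_le_div_iff₀ (by positivity) hS0] at h1
  exact_mod_cast h1

/-- zeros of a polynomial in a box -/
theorem zeros_box [Fintype ι] [DecidableEq ι] (K : Type) [Field K] [NumberField K]
    (P : MvPolynomial ι (𝓞 K)) (hP : P ≠ 0) : ∃ C : ℝ, 0 ≤ C ∧ ∀ H : ℕ, 1 ≤ H →
    ∀ B : Finset (ι → 𝓞 K), (∀ c ∈ B, (∀ i, c i ∈ box K H) ∧ MvPolynomial.eval c P = 0) →
      (B.card : ℝ) * H ≤ C * (H : ℝ) ^ (Fintype.card ι * Module.finrank ℚ K) := by
  classical
  obtain ⟨τ, hτ⟩ := mv_zeros P hP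
  set d := Module.finrank ℚ K with hd
  have hd0 : 1 ≤ d := Module.finrank_pos
  refine ⟨τ * (3 : ℝ) ^ (Fintype.card ι * d), by positivity, fun H hH B hB => ?_⟩
  have hHR : (1 : ℝ) ≤ H := by exact_mod_cast hH
  set S := box K H with hS
  have hSne : S.Nonempty := ⟨0, by rw [hS, mem_box]; intro i; simp⟩
  have h1 := hτ S hSne
  have h2 : B.card ≤ ((Fintype.piFinset fun _ : ι => S).filter fun c => MvPolynomial.eval c P = 0).card := by
    refine card_le_card fun c hc => ?_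
    rw [mem_filter, Fintype.mem_piFinset]
    exact hB c hc
  have h3 : (H : ℝ) ≤ S.card := by
    rw [hS, card_box]
    push_cast
    calc (H : ℝ) ≤ (2 * H + 1) := by linarith
      _ ≤ (2 * H + 1) ^ d := by
        conv_lhs => rw [← pow_one (2 * (H : ℝ) + 1)]
        exact pow_le_pow_right₀ (by linarith) hd0
  have h4 : (B.card : ℝ) * S.card ≤ τ * (S.card : ℝ) ^ Fintype.card ι := by
    exact_mod_cast (Nat.mul_le_mul_right _ h2).trans h1
  have h5 : (S.card : ℝ) ^ Fintype.card ι ≤ (3 * H : ℝ) ^ (Fintype.card ι * d) := by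
    rw [hS, card_box, mul_comm (Fintype.card ι) d, pow_mul]
    push_cast
    exact pow_le_pow_left₀ (by positivity)
      (pow_le_pow_left₀ (by positivity) (by linarith) _) _
  calc (B.card : ℝ) * H ≤ B.card * S.card := mul_le_mul_of_nonneg_left h3 (Nat.cast_nonneg _)
    _ ≤ τ * (S.card : ℝ) ^ Fintype.card ι := h4
    _ ≤ τ * (3 * H : ℝ) ^ (Fintype.card ι * d) := mul_le_mul_of_nonneg_left h5 (Nat.cast_nonneg _)
    _ = τ * (3 : ℝ) ^ (Fintype.card ι * d) * (H : ℝ) ^ (Fintype.card ι * d) := by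
      rw [mul_pow, mul_assoc]

/-- averaging, with the zeros of a polynomial as exceptions -/
theorem avg_gen [Fintype ι] [DecidableEq ι] (K : Type) [Field K] [NumberField K] (j : ι)
    (P : MvPolynomial ι (𝓞 K)) (hP : P ≠ 0) (A : ℕ)
    (hA : ∀ H : ℕ, ∀ x ∈ box K H, ∀ t ∈ Icc (-(H : ℤ)) H, x - (t : 𝓞 K) ∈ box K (A * H))
    (hA1 : 1 ≤ A) (δ : ℝ) (hδ : δ ≤ 1) (C₁ : ℝ) (hC₁ : 0 ≤ C₁) :
    ∃ C : ℝ, 0 ≤ C ∧ ∀ H : ℕ, 1 ≤ H → ∀ bad : (ι → 𝓞 K) → Prop,
      (∀ c, (∀ i, c i ∈ box K (A * H)) → MvPolynomial.eval c P ≠ 0 → ∀ Z : Finset ℤ,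
        (∀ t ∈ Z, t ∈ Icc (-(H : ℤ)) H ∧ bad (shi j c (t : 𝓞 K))) →
          (Z.card : ℝ) ≤ C₁ * (H : ℝ) ^ (1 - δ)) →
      ∀ B : Finset (ι → 𝓞 K), (∀ c ∈ B, (∀ i, c i ∈ box K H) ∧ bad c) →
        (B.card : ℝ) ≤ C * (H : ℝ) ^ ((Fintype.card ι * Module.finrank ℚ K : ℕ) - δ : ℝ) := by
  classical
  obtain ⟨C₂, hC₂, h2⟩ := zeros_box K P hP
  set d := Module.finrank ℚ K with hd
  set N := Fintype.card ι * d with hN
  have hAR : (1 : ℝ) ≤ A := by exact_mod_cast hA1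
  refine ⟨(3 * A : ℝ) ^ N * C₁ + C₂ * (A : ℝ) ^ N, by positivity, fun H hH bad hbad B hB => ?_⟩
  have hHR : (1 : ℝ) ≤ H := by exact_mod_cast hH
  have hH0 : (0 : ℝ) < H := by linarith
  have hAH : 1 ≤ A * H := Nat.mul_pos hA1 hH
  set E : Finset (ι → 𝓞 K) := (Fintype.piFinset fun _ => box K (A * H)).filter fun c =>
    MvPolynomial.eval c P = 0 with hE
  have hE1 : ∀ c, (∀ i, c i ∈ box K (A * H)) → MvPolynomial.eval c P = 0 → c ∈ E := fun c hc h => by
    rw [hE, mem_filter, Fintype.mem_piFinset]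
    exact ⟨hc, h⟩
  have hE2 := h2 (A * H) hAH E fun c hc => by
    rw [hE, mem_filter, Fintype.mem_piFinset] at hc
    exact hc
  have hE3 : (E.card : ℝ) ≤ C₂ * (A : ℝ) ^ N * (H : ℝ) ^ N / H := by
    rw [le_div_iff₀ hH0]
    push_cast at hE2
    calc (E.card : ℝ) * H ≤ E.card * (A * H) :=
          mul_le_mul_of_nonneg_left (by nlinarith) (Nat.cast_nonneg _)
      _ ≤ C₂ * (A * H : ℝ) ^ N := hE2
      _ = C₂ * (A : ℝ) ^ N * (H : ℝ) ^ N := by rw [mul_pow, mul_assoc]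
  have h3 := avg j A hA hA1 bad (fun c => MvPolynomial.eval c P = 0) H (C₁ * (H : ℝ) ^ (1 - δ)) _ (by positivity)
    B hB E hE1 hE3 (fun c hc h => hbad c hc h)
  have h5 : (((2 * (A * H) + 1 : ℕ) : ℝ) ^ d) ^ Fintype.card ι ≤ (3 * A * H : ℝ) ^ N := by
    rw [← pow_mul, mul_comm d, ← hN]
    refine pow_le_pow_left₀ (by positivity) ?_ _
    push_cast
    nlinarith
  set P₀ : ℝ := (H : ℝ) ^ ((N : ℕ) - δ : ℝ) with hP₀
  have hP₀0 : 0 < P₀ := by positivity
  have e1 : (H : ℝ) ^ N * (H : ℝ) ^ (1 - δ) = P₀ * H := by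
    rw [hP₀, ← Real.rpow_natCast, ← Real.rpow_add hH0]
    conv_rhs => rw [← Real.rpow_one (H : ℝ), ← Real.rpow_mul hH0.le, one_mul,
      ← Real.rpow_add hH0]
    congr 1
    ring
  have e2 : (H : ℝ) ^ N / H ≤ P₀ := by
    rw [hP₀, ← Real.rpow_natCast, ← Real.rpow_sub_one hH0.ne']
    exact Real.rpow_le_rpow_of_exponent_le hHR (by linarith)
  have h6 : (B.card : ℝ) * (2 * H + 1) ≤
      ((3 * A : ℝ) ^ N * C₁ + C₂ * (A : ℝ) ^ N) * P₀ * (2 * H + 1) := by
    refine h3.trans ?_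
    have f1 : (((2 * (A * H) + 1 : ℕ) : ℝ) ^ d) ^ Fintype.card ι * (C₁ * (H : ℝ) ^ (1 - δ)) ≤
        (3 * A : ℝ) ^ N * C₁ * P₀ * (2 * H + 1) := by
      calc (((2 * (A * H) + 1 : ℕ) : ℝ) ^ d) ^ Fintype.card ι * (C₁ * (H : ℝ) ^ (1 - δ))
          ≤ (3 * A * H : ℝ) ^ N * (C₁ * (H : ℝ) ^ (1 - δ)) :=
            mul_le_mul_of_nonneg_right h5 (by positivity)
        _ = (3 * A : ℝ) ^ N * C₁ * ((H : ℝ) ^ N * (H : ℝ) ^ (1 - δ)) := by
            rw [mul_pow]
            ring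
        _ = (3 * A : ℝ) ^ N * C₁ * P₀ * H := by rw [e1]; ring
        _ ≤ (3 * A : ℝ) ^ N * C₁ * P₀ * (2 * H + 1) :=
            mul_le_mul_of_nonneg_left (by linarith) (by positivity)
    have f2 : C₂ * (A : ℝ) ^ N * (H : ℝ) ^ N / H * (2 * H + 1) ≤
        C₂ * (A : ℝ) ^ N * P₀ * (2 * H + 1) := by
      refine mul_le_mul_of_nonneg_right ?_ (by positivity)
      rw [mul_div_assoc]
      exact mul_le_mul_of_nonneg_left e2 (by positivity)
    have f3 : ((3 * A : ℝ) ^ N * C₁ + C₂ * (A : ℝ) ^ N) * P₀ * (2 * H + 1) =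
        (3 * A : ℝ) ^ N * C₁ * P₀ * (2 * H + 1) + C₂ * (A : ℝ) ^ N * P₀ * (2 * H + 1) := by ring
    rw [f3]
    exact add_le_add f1 f2
  exact le_of_mul_le_mul_right h6 (by positivity)

end box

end Pool.Agent.K4H5.EF
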