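import Pool.Agent.K4H5.HF.Def

/-!
Definitions: the conductor of the Jacobians of the quadratic twists of a hyperelliptic curve, at the
places where a Weierstrass model is semistable; and the members of a family of hyperelliptic curves.
-/

set_option autoImplicit false

open NumberField IsDedekindDomain Polynomial

namespace Pool.Agent.K4H5.EF

open Pool.Agent.K4H5.HF (zeros zv nv oddv height)

/-- The binary form of degree `M` over `k` whose dehomogenisation is `F` is not zero and has no zero
of a multiplicity greater than two in the projective line over an algebraic closure of `k`: neither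
the point at infinity (where the multiplicity is `M - deg F`) nor an affine point. -/
def NoTriple {k : Type} [Field k] (M : ℕ) (F : k[X]) : Prop :=
  F ≠ 0 ∧ M ≤ F.natDegree + 2 ∧
    ∀ x, (F.map (algebraMap k (AlgebraicClosure k))).rootMultiplicity x ≤ 2

variable {K : Type} [Field K] [NumberField K]

/-- The place `v` does not divide `2` and `F` has no triple zero modulo `v` as a form of degree
`2 g + 2`: the curve `y² = F(x)` has a smooth or semistable (nodal) reduction. -/
def Semi (g : ℕ) (F : (𝓞 K)[X]) (v : HeightOneSpectrum (𝓞 K)) : Prop :=
  (2 : 𝓞 K) ∉ v.asIdeal ∧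
    NoTriple (2 * g + 2) (F.map (algebraMap (𝓞 K) v.asIdeal.ResidueField))

open Classical in
/-- A lower bound for the exponent of the conductor of the Jacobian of `y² = e F(x)` at `v`: if
the reduction modulo `v` of `y² = F(x)` is smooth or semistable then it is `2 g` if the order of
`e` at `v` is odd, and otherwise `0` in the smooth and `1` in the nodal case; and `0` for the other
places. -/
noncomputable def expo (g : ℕ) (F : (𝓞 K)[X]) (e : K) (v : HeightOneSpectrum (𝓞 K)) : ℕ :=
  if ¬ Semi g F v then 0
  else if v ∈ oddv e then 2 * g else if zv (2 * g + 2) v F = 2 * g + 2 then 0 else 1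

/-- a divisor of the conductor of the Jacobian of `y² = e F(x)` -/
noncomputable def cond (g : ℕ) (F : (𝓞 K)[X]) (e : K) : ℕ :=
  ∏ᶠ v : HeightOneSpectrum (𝓞 K), nv v ^ expo g F e v

/-- The curve `y² = F(x)` has genus `g`, and the inequality of Frey with the slope `κ` and the
constant `C` holds for the Jacobians of all its quadratic twists `y² = e F(x)`. -/
def Frey (g : ℕ) (κ C : ℝ) (F : (𝓞 K)[X]) : Prop :=
  zeros (2 * g + 2) (F.map (algebraMap (𝓞 K) K)) = 2 * g + 2 ∧
    ∀ e : K, e ≠ 0 → height g F e ≤ κ * Real.log (cond g F e) + C

/-- the member at the integral point `b` of the family `F` -/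
noncomputable def member {n : ℕ} (F : (MvPolynomial (Fin n) (𝓞 K))[X]) (b : Fin n → 𝓞 K) :
    (𝓞 K)[X] := F.map (MvPolynomial.eval b)

/-- the member at the point `b` over the algebraic closure of the family `F` -/
noncomputable def geomMember {n : ℕ} (F : (MvPolynomial (Fin n) (𝓞 K))[X])
    (b : Fin n → AlgebraicClosure K) : (AlgebraicClosure K)[X] :=
  F.map (MvPolynomial.eval₂Hom ((algebraMap K (AlgebraicClosure K)).comp (algebraMap (𝓞 K) K)) b)

end Pool.Agent.K4H5.EF
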