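import Pool.Agent.K4H5.HF.Res
import Pool.Agent.K4H5.EF.Def
import Mathlib.Algebra.Polynomial.Reverse
import Mathlib.Algebra.Polynomial.Taylor
import Mathlib.Algebra.Polynomial.FieldDivision

/-!
Moving the point at infinity, and the detection of triple zeros.
-/

set_option autoImplicit false
set_option linter.unusedSectionVars false

open Polynomial

namespace Pool.Agent.K4H5.EF

open Pool.Agent.K4H5.HF (fp fp_coeff fp_natDegree fp_map nr zeros Dd Dd_map nr_eq_iff fp_deg fp_ne
  nr_le)

section ring

variable {R S : Type} [CommRing R] [CommRing S]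

/-- the coefficients of `x ^ M F(a + 1 / x)` -/
noncomputable def cf (M a : ℕ) (F : R[X]) : Fin (M + 1) → R :=
  fun i => ((taylor (a : R) F).reflect M).coeff i

theorem cf_map (φ : R →+* S) (M a : ℕ) (F : R[X]) :
    (fun i => φ (cf M a F i)) = cf M a (F.map φ) := by
  funext i
  unfold cf
  rw [← coeff_map, ← reflect_map, map_taylor, map_natCast]

theorem cf_last (M a : ℕ) (F : R[X]) : cf M a F (Fin.last M) = F.eval (a : R) := by
  unfold cf
  rw [Fin.val_last, coeff_reflect, revAt_le le_rfl, Nat.sub_self, taylor_coeff_zero]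

theorem fp_cf (M a : ℕ) (F : R[X]) (hF : F.natDegree ≤ M) :
    fp (cf M a F) = (taylor (a : R) F).reflect M := by
  ext i
  by_cases h : i ≤ M
  · have := fp_coeff (cf M a F) ⟨i, Nat.lt_succ_iff.2 h⟩
    exact this
  · push Not at h
    rw [coeff_eq_zero_of_natDegree_lt ((fp_natDegree _).trans_lt h), coeff_reflect,
      revAt_eq_self_of_lt h, coeff_eq_zero_of_natDegree_lt]
    rw [natDegree_taylor]
    exact hF.trans_lt h

/-- the resultant of a polynomial `f` and `f' + s f''` -/
noncomputable def Ss {N : ℕ} (s : ℕ) (c : Fin (N + 1) → R) : R :=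
  resultant (fp c) (derivative (fp c) + (s : R[X]) * derivative (derivative (fp c))) N (N - 1)

theorem Ss_map {N : ℕ} (φ : R →+* S) (s : ℕ) (c : Fin (N + 1) → R) :
    φ (Ss s c) = Ss s fun i => φ (c i) := by
  unfold Ss
  rw [← resultant_map_map, Polynomial.map_add, Polynomial.map_mul, ← derivative_map,
    ← derivative_map, ← derivative_map, fp_map, Polynomial.map_natCast]

end ring

section field

variable {L : Type} [Field L]

theorem cube_reflect {M : ℕ} {f : L[X]} (hf : f.natDegree ≤ M) {y : L} (hy : y ≠ 0)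
    (h : (X - C y) ^ 3 ∣ f) : (X - C y⁻¹) ^ 3 ∣ f.reflect M := by
  by_cases h0 : f = 0
  · rw [h0, reflect_zero]
    exact dvd_zero _
  obtain ⟨Q, rfl⟩ := h
  have hQ0 : Q ≠ 0 := right_ne_zero_of_mul h0
  have hd : ((X - C y) ^ 3).natDegree = 3 := by
    rw [natDegree_pow, natDegree_X_sub_C]
  rw [natDegree_mul (left_ne_zero_of_mul h0) hQ0, hd] at hf
  have hM : M = 3 + (M - 3) := by omega
  have h1 : (X - C y : L[X]).reflect 1 = C (-y) * (X - C y⁻¹) := by
    have e : (X - C y : L[X]) = X + C (-y) := by rw [C_neg, sub_eq_add_neg]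
    rw [e, reflect_add, reflect_one_X, reflect_C, pow_one, mul_sub, ← C_mul, neg_mul,
      mul_inv_cancel₀ hy, C_neg, C_neg, C_1]
    ring
  have h2 : ((X - C y : L[X]) ^ 2).reflect 2 = ((X - C y).reflect 1) ^ 2 := by
    rw [pow_two, pow_two, show (2 : ℕ) = 1 + 1 from rfl,
      reflect_mul _ _ (natDegree_X_sub_C_le y) (natDegree_X_sub_C_le y)]
  have h3 : ((X - C y : L[X]) ^ 3).reflect 3 = ((X - C y).reflect 1) ^ 3 := by
    rw [pow_succ, show (3 : ℕ) = 2 + 1 from rfl,
      reflect_mul _ _ (F := 2) (G := 1) ?_ (natDegree_X_sub_C_le y), h2, ← pow_succ]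
    rw [natDegree_pow, natDegree_X_sub_C]
  rw [hM, reflect_mul _ _ hd.le (by omega), h3, h1, mul_pow, mul_assoc]
  exact ⟨C (-y) ^ 3 * Q.reflect (M - 3), by ring⟩

theorem cube_taylor {f : L[X]} (r y : L) :
    (X - C y) ^ 3 ∣ taylor r f ↔ (X - C (y + r)) ^ 3 ∣ f := by
  have h1 : ∀ (s z : L), taylor s ((X - C z) ^ 3) = (X - C (z - s)) ^ 3 := by
    intro s z
    rw [taylor_pow, map_sub, taylor_X, taylor_C, C_sub]
    congr 1
    ring
  constructor
  · rintro ⟨Q, hQ⟩
    refine ⟨taylor (-r) Q, ?_⟩
    apply taylor_injective r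
    rw [taylor_mul, h1, taylor_taylor, add_neg_cancel, taylor_zero, add_sub_cancel_right]
    exact hQ
  · rintro ⟨Q, hQ⟩
    refine ⟨taylor r Q, ?_⟩
    rw [hQ, taylor_mul, h1, add_sub_cancel_right]

theorem X_cube {M : ℕ} {f : L[X]} (hf : f.natDegree ≤ M) (hM : 3 ≤ M) :
    X ^ 3 ∣ f.reflect M ↔ f.natDegree + 3 ≤ M ∨ f = 0 := by
  rw [X_pow_dvd_iff]
  constructor
  · intro h
    by_contra hcon
    push Not at hcon
    have h1 := h (M - f.natDegree) (by omega)
    rw [coeff_reflect, revAt_le (by omega)] at h1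
    have h2 : M - (M - f.natDegree) = f.natDegree := by omega
    rw [h2] at h1
    exact hcon.2 (leadingCoeff_eq_zero.1 h1)
  · rintro (h | h) d hd
    · rw [coeff_reflect, revAt_le (by omega)]
      exact coeff_eq_zero_of_natDegree_lt (by omega)
    · rw [h, reflect_zero, coeff_zero]

/-- no triple zeros, after moving the point at infinity -/
theorem cube_iff {M a : ℕ} {F : L[X]} (hF : F.natDegree ≤ M) (hM : 3 ≤ M)
    (ha : F.eval (a : L) ≠ 0) : (F ≠ 0 ∧ M ≤ F.natDegree + 2 ∧ ∀ x, F.rootMultiplicity x ≤ 2) ↔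
      ∀ y, ¬ (X - C y) ^ 3 ∣ fp (cf M a F) := by
  have hF0 : F ≠ 0 := by
    rintro rfl
    rw [eval_zero] at ha
    exact ha rfl
  have hmul : ∀ x, F.rootMultiplicity x ≤ 2 ↔ ¬ (X - C x) ^ 3 ∣ F := by
    intro x
    rw [← le_rootMultiplicity_iff hF0]
    omega
  have hT : (taylor (a : L) F).natDegree ≤ M := by rw [natDegree_taylor]; exact hF
  rw [fp_cf M a F hF]
  constructor
  · rintro ⟨-, h1, h2⟩ y hy
    by_cases hy0 : y = 0
    · subst hy0
      rw [C_0, sub_zero, X_cube hT hM, natDegree_taylor] at hy
      rcases hy with hy | hy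
      · omega
      · exact hF0 ((taylor_eq_zero _ _).1 hy)
    · have h3 := cube_reflect (M := M) (f := (taylor (a : L) F).reflect M)
        ((natDegree_reflect_le).trans (by rw [max_eq_left hT])) hy0 hy
      rw [reflect_reflect, cube_taylor] at h3
      exact (hmul _).1 (h2 _) h3
  · intro h
    refine ⟨hF0, ?_, fun x => (hmul x).2 fun hx => ?_⟩
    · by_contra hcon
      push Not at hcon
      apply h 0
      rw [C_0, sub_zero, X_cube hT hM, natDegree_taylor]
      left
      omega
    · have hxa : x - a ≠ 0 := by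
        intro h0
        apply ha
        rw [← sub_eq_zero.1 h0]
        exact dvd_iff_isRoot.1 ((dvd_pow_self _ (by norm_num)).trans hx)
      apply h (x - a)⁻¹
      apply cube_reflect hT hxa
      rw [cube_taylor, sub_add_cancel]
      exact hx

/-- the number of zeros, after moving the point at infinity -/
theorem nr_cf {M a : ℕ} {F : L[X]} (hF : F.natDegree ≤ M) (ha : F.eval (a : L) ≠ 0) :
    nr (fp (cf M a F)) = nr F + if F.natDegree < M then 1 else 0 := by
  classical
  have hF0 : F ≠ 0 := by
    rintro rfl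
    rw [eval_zero] at ha
    exact ha rfl
  have hT : (taylor (a : L) F).natDegree ≤ M := by rw [natDegree_taylor]; exact hF
  have hG0 : fp (cf M a F) ≠ 0 := by
    rw [fp_cf M a F hF, Ne, reflect_eq_zero_iff, taylor_eq_zero]
    exact hF0
  have hev : ∀ z : L, z ≠ 0 → ((fp (cf M a F)).eval z⁻¹ = 0 ↔ F.eval (z + a) = 0) := by
    intro z hz
    have : Invertible z := invertibleOfNonzero hz
    have h1 := eval₂_reflect_eq_zero_iff (RingHom.id L) z M (taylor (a : L) F) hT
    rw [invOf_eq_inv, eval₂_id, eval₂_id, taylor_eval] at h1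
    rw [fp_cf M a F hF]
    exact h1
  have h0 : (fp (cf M a F)).eval 0 = 0 ↔ F.natDegree < M := by
    rw [← coeff_zero_eq_eval_zero, fp_cf M a F hF, coeff_reflect, revAt_zero]
    constructor
    · intro h
      by_contra hcon
      have h2 : F.natDegree = M := by omega
      rw [← h2, coeff_taylor_natDegree, leadingCoeff_eq_zero] at h
      exact hF0 h
    · intro h
      apply coeff_eq_zero_of_natDegree_lt
      rw [natDegree_taylor]
      exact h
  have key : (fp (cf M a F)).roots.toFinset =
      (F.roots.toFinset.image fun x => (x - (a : L))⁻¹) ∪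
      if F.natDegree < M then {0} else ∅ := by
    ext y
    rw [Finset.mem_union, Multiset.mem_toFinset, mem_roots hG0, IsRoot, Finset.mem_image]
    by_cases hy : y = 0
    · subst hy
      rw [h0]
      constructor
      · intro h
        right
        rw [if_pos h]
        exact Finset.mem_singleton_self 0
      · rintro (⟨x, hx, hx0⟩ | h)
        · exfalso
          rw [inv_eq_zero, sub_eq_zero] at hx0
          rw [Multiset.mem_toFinset, mem_roots hF0, IsRoot, hx0] at hx
          exact ha hx
        · by_contra hcon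
          rw [if_neg hcon] at h
          exact absurd h (Finset.notMem_empty _)
    · have h3 := hev y⁻¹ (inv_ne_zero hy)
      rw [inv_inv] at h3
      rw [h3]
      constructor
      · intro h
        left
        refine ⟨y⁻¹ + a, ?_, ?_⟩
        · rw [Multiset.mem_toFinset, mem_roots hF0]
          exact h
        · rw [add_sub_cancel_right, inv_inv]
      · rintro (⟨x, hx, rfl⟩ | h)
        · rw [Multiset.mem_toFinset, mem_roots hF0, IsRoot] at hx
          rw [inv_inv, sub_add_cancel]
          exact hx
        · exfalso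
          split_ifs at h
          · exact hy (Finset.mem_singleton.1 h)
          · exact absurd h (Finset.notMem_empty _)
  have hdisj : Disjoint (F.roots.toFinset.image fun x => (x - (a : L))⁻¹)
      (if F.natDegree < M then {0} else ∅) := by
    rw [Finset.disjoint_left]
    intro y hy hy2
    rw [Finset.mem_image] at hy
    obtain ⟨x, hx, rfl⟩ := hy
    split_ifs at hy2
    · rw [Finset.mem_singleton, inv_eq_zero, sub_eq_zero] at hy2
      rw [Multiset.mem_toFinset, mem_roots hF0, IsRoot, hy2] at hx
      exact ha hx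
    · exact absurd hy2 (Finset.notMem_empty _)
  unfold nr
  rw [key, Finset.card_union_of_disjoint hdisj, Finset.card_image_of_injective]
  · congr 1
    split_ifs <;> simp
  · intro x x' h
    have h' : (x - (a : L))⁻¹ = (x' - a)⁻¹ := h
    exact sub_left_injective (inv_injective h')

end field

section closed

variable {L : Type} [Field L] [IsAlgClosed L] {N : ℕ} (hN : 2 ≤ N) (c : Fin (N + 1) → L)
  (hc : (N : L) * c (Fin.last N) ≠ 0)

include hN hc in
theorem Ss_eq (s : ℕ) : Ss s c = (fp c).leadingCoeff ^ (N - 1) *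
    ((fp c).roots.map fun x => (derivative (fp c)).eval x +
      s * (derivative (derivative (fp c))).eval x).prod := by
  unfold Ss
  have h1 : (derivative (fp c) + (s : L[X]) * derivative (derivative (fp c))).natDegree ≤
      N - 1 := by
    refine (natDegree_add_le _ _).trans (max_le ?_ ?_)
    · have := natDegree_derivative_le (fp c)
      rw [fp_deg c hc] at this
      exact this
    · refine natDegree_mul_le.trans ?_
      rw [natDegree_natCast, zero_add]
      have h2 := natDegree_derivative_le (derivative (fp c))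
      have h3 := natDegree_derivative_le (fp c)
      rw [fp_deg c hc] at h3
      omega
  have h := resultant_eq_prod_eval (fp c)
    (derivative (fp c) + (s : L[X]) * derivative (derivative (fp c))) (N - 1) h1
    (IsAlgClosed.splits _)
  rw [fp_deg c hc] at h
  rw [h]
  congr 3
  funext x
  rw [eval_add, eval_mul, eval_natCast]

include hN hc in
theorem cube_of_Ss (s : ℕ) (h : Ss s c ≠ 0) (y : L) : ¬ (X - C y) ^ 3 ∣ fp c := by
  intro h3
  apply h
  rw [Ss_eq hN c hc]
  apply mul_eq_zero_of_right
  rw [Multiset.prod_eq_zero_iff, Multiset.mem_map]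
  obtain ⟨Q, hQ⟩ := h3
  refine ⟨y, ?_, ?_⟩
  · rw [mem_roots (fp_ne c hc), IsRoot, hQ]
    simp
  · rw [hQ]
    simp [derivative_mul, derivative_pow]

include hN hc in
theorem exists_Ss [CharZero L] (h : ∀ y, ¬ (X - C y) ^ 3 ∣ fp c) : ∃ s : ℕ, Ss s c ≠ 0 := by
  classical
  have h0 := fp_ne c hc
  set q : L[X] := ((fp c).roots.map fun x => C ((derivative (fp c)).eval x) +
      X * C ((derivative (derivative (fp c))).eval x)).prod with hq
  have hq0 : q ≠ 0 := by
    rw [hq]
    intro h1
    rw [Multiset.prod_eq_zero_iff, Multiset.mem_map] at h1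
    obtain ⟨x, hx, hx0⟩ := h1
    have e1 := congrArg (fun p => coeff p 0) hx0
    have e2 := congrArg (fun p => coeff p 1) hx0
    simp at e1 e2
    apply h x
    rw [← le_rootMultiplicity_iff h0]
    have h2 : 2 < (fp c).rootMultiplicity x := by
      rw [lt_rootMultiplicity_iff_isRoot_iterate_derivative h0]
      intro m hm
      have hm' : m = 0 ∨ m = 1 ∨ m = 2 := by omega
      rcases hm' with rfl | rfl | rfl
      · exact (mem_roots h0).1 hx
      · exact e1
      · exact e2
    exact h2
  obtain ⟨s, hs⟩ : ∃ s : ℕ, q.eval (s : L) ≠ 0 := by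
    by_contra hcon
    push Not at hcon
    apply hq0
    apply Polynomial.eq_zero_of_infinite_isRoot
    apply Set.Infinite.mono (s := Set.range (fun s : ℕ => (s : L)))
    · rintro _ ⟨s, rfl⟩
      exact hcon s
    · exact Set.infinite_range_of_injective Nat.cast_injective
  refine ⟨s, ?_⟩
  rw [Ss_eq hN c hc]
  refine mul_ne_zero (pow_ne_zero _ (leadingCoeff_ne_zero.2 h0)) ?_
  rw [hq, eval_multiset_prod, Multiset.map_map] at hs
  intro h1
  apply hs
  rw [← h1]
  congr 1
  refine Multiset.map_congr rfl fun x _ => ?_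
  rw [Function.comp_apply, eval_add, eval_mul, eval_C, eval_X, eval_C]

end closed

end Pool.Agent.K4H5.EF
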