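import Pool.Agent.K4H5.HF.Loc
import Pool.Agent.K4H5.EF.Mob

/-!
The reductions of the members of a family of hyperelliptic curves.
-/

set_option autoImplicit false
set_option linter.unusedSectionVars false

open NumberField IsDedekindDomain Polynomial

namespace Pool.Agent.K4H5.EF

open Pool.Agent.K4H5.HF (fp fp_coeff fp_natDegree fp_map nr zeros zv Dd Dd_map nr_eq_iff fp_deg
  fp_ne nr_le Dd_eq der_ne ph_zero)

section field

variable {k : Type} [Field k] {M : ℕ} (hM : 3 ≤ M) (a : ℕ) (F : k[X]) (hF : F.natDegree ≤ M)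
  (hc : (M : AlgebraicClosure k) *
    cf M a (F.map (algebraMap k (AlgebraicClosure k))) (Fin.last M) ≠ 0)

include hF hc in
theorem zeros_eq : zeros M F = nr (fp (cf M a (F.map (algebraMap k (AlgebraicClosure k))))) := by
  have ha := right_ne_zero_of_mul hc
  rw [cf_last] at ha
  rw [nr_cf (by rw [natDegree_map]; exact hF) ha, natDegree_map]
  rfl

include hM hF hc in
theorem zeros_iff : zeros M F = M ↔
    Dd (cf M a (F.map (algebraMap k (AlgebraicClosure k)))) ≠ 0 := by
  rw [zeros_eq a F hF hc]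
  exact nr_eq_iff (by omega) _ hc

include hM hF hc in
theorem zeros_le : zeros M F ≤ M := by
  rw [zeros_eq a F hF hc]
  exact nr_le (by omega) _ hc

include hM hF hc in
theorem noTriple_iff : NoTriple M F ↔ ∀ y, ¬ (X - C y) ^ 3 ∣
    fp (cf M a (F.map (algebraMap k (AlgebraicClosure k)))) := by
  have ha := right_ne_zero_of_mul hc
  rw [cf_last] at ha
  rw [← cube_iff (by rw [natDegree_map]; exact hF) hM ha, natDegree_map]
  unfold NoTriple
  rw [Ne, Ne, Polynomial.map_eq_zero]

include hM hF hc in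
theorem noTriple_of_zeros (h : zeros M F = M) : NoTriple M F := by
  rw [zeros_iff hM a F hF hc, Dd_eq (by omega) _ hc] at h
  rw [noTriple_iff hM a F hF hc]
  rintro y ⟨Q, hQ⟩
  apply h
  apply mul_eq_zero_of_right
  rw [Multiset.prod_eq_zero_iff, Multiset.mem_map]
  refine ⟨y, ?_, ?_⟩
  · rw [mem_roots (der_ne (by omega) _ hc), IsRoot, hQ]
    simp [derivative_mul, derivative_pow]
  · rw [hQ]
    simp

end field

variable {K : Type} [Field K] [NumberField K] {n : ℕ}

section local_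

variable {g : ℕ} (hg : 1 ≤ g) (a : ℕ) (F : (MvPolynomial (Fin n) (𝓞 K))[X])
  (hF : F.natDegree ≤ 2 * g + 2) (b : Fin n → 𝓞 K)

theorem cf_at (v : HeightOneSpectrum (𝓞 K)) : cf (2 * g + 2) a
    (((member F b).map (algebraMap (𝓞 K) v.asIdeal.ResidueField)).map
      (algebraMap v.asIdeal.ResidueField (AlgebraicClosure v.asIdeal.ResidueField))) =
    fun i => HF.ph v (MvPolynomial.eval b (cf (2 * g + 2) a F i)) := by
  have h := cf_map ((HF.ph v).comp (MvPolynomial.eval b)) (2 * g + 2) a F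
  unfold member
  rw [Polynomial.map_map, Polynomial.map_map]
  exact h.symm

include hF in
theorem deg_at (v : HeightOneSpectrum (𝓞 K)) :
    ((member F b).map (algebraMap (𝓞 K) v.asIdeal.ResidueField)).natDegree ≤ 2 * g + 2 :=
  (natDegree_map_le).trans ((natDegree_map_le).trans hF)

theorem last_at (v : HeightOneSpectrum (𝓞 K))
    (h : ((2 * (2 * g + 2) : ℕ) : 𝓞 K) ∉ v.asIdeal)
    (hl : MvPolynomial.eval b (cf (2 * g + 2) a F (Fin.last _)) ∉ v.asIdeal) :
    ((2 * g + 2 : ℕ) : AlgebraicClosure v.asIdeal.ResidueField) *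
      cf (2 * g + 2) a (((member F b).map (algebraMap (𝓞 K) v.asIdeal.ResidueField)).map
        (algebraMap v.asIdeal.ResidueField (AlgebraicClosure v.asIdeal.ResidueField)))
        (Fin.last _) ≠ 0 := by
  rw [cf_at]
  refine mul_ne_zero ?_ ?_
  · intro h0
    apply h
    rw [Nat.cast_mul]
    apply v.asIdeal.mul_mem_left
    rw [← ph_zero, map_natCast]
    exact h0
  · rw [Ne, ph_zero]
    exact hl

include hg hF in
theorem good_at (v : HeightOneSpectrum (𝓞 K))
    (h : ((2 * (2 * g + 2) : ℕ) : 𝓞 K) ∉ v.asIdeal)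
    (hl : MvPolynomial.eval b (cf (2 * g + 2) a F (Fin.last _)) ∉ v.asIdeal)
    (hD : MvPolynomial.eval b (Dd (cf (2 * g + 2) a F)) ∉ v.asIdeal) :
    Semi g (member F b) v ∧ zv (2 * g + 2) v (member F b) = 2 * g + 2 := by
  have hc := last_at a F b v h hl
  have h2 : (2 : 𝓞 K) ∉ v.asIdeal := fun h2 => h (by
    rw [Nat.cast_mul]
    exact v.asIdeal.mul_mem_right _ (by exact_mod_cast h2))
  have h3 : zeros (2 * g + 2) ((member F b).map (algebraMap (𝓞 K) v.asIdeal.ResidueField)) =
      2 * g + 2 := by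
    rw [zeros_iff (by omega) a _ (deg_at F hF b v) hc, cf_at, ← Dd_map, Ne, ph_zero]
    rw [Dd_map] at hD
    exact hD
  exact ⟨⟨h2, noTriple_of_zeros (by omega) a _ (deg_at F hF b v) hc h3⟩, h3⟩

include hg hF in
theorem nodal_at (v : HeightOneSpectrum (𝓞 K)) (s : ℕ)
    (h : ((2 * (2 * g + 2) : ℕ) : 𝓞 K) ∉ v.asIdeal)
    (hS : MvPolynomial.eval b (cf (2 * g + 2) a F (Fin.last _) * Ss s (cf (2 * g + 2) a F)) ∉
      v.asIdeal)
    (hD : MvPolynomial.eval b (Dd (cf (2 * g + 2) a F)) ∈ v.asIdeal) :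
    Semi g (member F b) v ∧ zv (2 * g + 2) v (member F b) ≠ 2 * g + 2 := by
  rw [map_mul] at hS
  have hl : MvPolynomial.eval b (cf (2 * g + 2) a F (Fin.last _)) ∉ v.asIdeal := fun h1 =>
    hS (v.asIdeal.mul_mem_right _ h1)
  have hS' : MvPolynomial.eval b (Ss s (cf (2 * g + 2) a F)) ∉ v.asIdeal := fun h1 =>
    hS (v.asIdeal.mul_mem_left _ h1)
  have hc := last_at a F b v h hl
  have h2 : (2 : 𝓞 K) ∉ v.asIdeal := fun h2 => h (by
    rw [Nat.cast_mul]
    exact v.asIdeal.mul_mem_right _ (by exact_mod_cast h2))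
  refine ⟨⟨h2, ?_⟩, ?_⟩
  · rw [noTriple_iff (by omega) a _ (deg_at F hF b v) hc]
    apply cube_of_Ss (by omega) _ hc s
    rw [cf_at]
    have h3 := Ss_map (HF.ph v) s fun i => MvPolynomial.eval b (cf (2 * g + 2) a F i)
    have h4 := Ss_map (MvPolynomial.eval b) s (cf (2 * g + 2) a F)
    rw [← h3, ← h4, Ne, ph_zero]
    exact hS'
  · show ¬ zeros (2 * g + 2) _ = 2 * g + 2
    rw [zeros_iff (by omega) a _ (deg_at F hF b v) hc, cf_at, not_not]
    have h3 := Dd_map (HF.ph v) fun i => MvPolynomial.eval b (cf (2 * g + 2) a F i)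
    have h4 := Dd_map (MvPolynomial.eval b) (cf (2 * g + 2) a F)
    rw [← h3, ← h4, ph_zero]
    exact hD

include hg hF in
theorem smooth_K (hl : MvPolynomial.eval b (cf (2 * g + 2) a F (Fin.last _)) ≠ 0)
    (hD : MvPolynomial.eval b (Dd (cf (2 * g + 2) a F)) ≠ 0) :
    zeros (2 * g + 2) ((member F b).map (algebraMap (𝓞 K) K)) = 2 * g + 2 := by
  set ψ : 𝓞 K →+* AlgebraicClosure K := (algebraMap K (AlgebraicClosure K)).comp
    (algebraMap (𝓞 K) K) with hψ
  have hinj : Function.Injective ψ :=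
    (algebraMap K (AlgebraicClosure K)).injective.comp (FaithfulSMul.algebraMap_injective (𝓞 K) K)
  have hcf : cf (2 * g + 2) a (((member F b).map (algebraMap (𝓞 K) K)).map
      (algebraMap K (AlgebraicClosure K))) =
      fun i => ψ (MvPolynomial.eval b (cf (2 * g + 2) a F i)) := by
    have h := cf_map (ψ.comp (MvPolynomial.eval b)) (2 * g + 2) a F
    unfold member
    rw [Polynomial.map_map, Polynomial.map_map]
    exact h.symm
  have hc : ((2 * g + 2 : ℕ) : AlgebraicClosure K) * cf (2 * g + 2) a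
      (((member F b).map (algebraMap (𝓞 K) K)).map (algebraMap K (AlgebraicClosure K)))
        (Fin.last _) ≠ 0 := by
    rw [hcf]
    refine mul_ne_zero (by exact_mod_cast (by omega : 2 * g + 2 ≠ 0)) ?_
    rw [Ne, map_eq_zero_iff _ hinj]
    exact hl
  have hd : ((member F b).map (algebraMap (𝓞 K) K)).natDegree ≤ 2 * g + 2 :=
    (natDegree_map_le).trans ((natDegree_map_le).trans hF)
  rw [zeros_iff (by omega) a _ hd hc, hcf]
  have h3 := Dd_map ψ fun i => MvPolynomial.eval b (cf (2 * g + 2) a F i)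
  have h4 := Dd_map (MvPolynomial.eval b) (cf (2 * g + 2) a F)
  rw [← h3, ← h4, Ne, map_eq_zero_iff _ hinj]
  exact hD

end local_

end Pool.Agent.K4H5.EF
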