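import Pool.Agent.K4H5.HF.Det
import Pool.Agent.K4H5.EF.Cnt
import Pool.Agent.K4H5.EF.Loc

/-!
The inequality of Frey for one member, from its semistable places.
-/

set_option autoImplicit false
set_option linter.unusedSectionVars false

open NumberField IsDedekindDomain Polynomial Finset

namespace Pool.Agent.K4H5.EF

open Pool.Agent.K4H5.HF (zeros nr nv em Nm oddv zv height vol oddv_finite log_nv_pos sum_log_const
  finite_above nv_ne Nm_ne exists_v p_dvd_Nm p_unique p_le_nv arch)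
open Pool.Agent.K4H5.PC (Sz)

variable {K : Type} [Field K] [NumberField K]

/-- the conductor is large -/
theorem cond_ge {g : ℕ} (hg : 1 ≤ g) (F : (𝓞 K)[X]) {z : 𝓞 K} (hz : z ≠ 0)
    (hzv : ∀ v : HeightOneSpectrum (𝓞 K), z ∉ v.asIdeal → zv (2 * g + 2) v F = 2 * g + 2)
    {e : K} (he : e ≠ 0) (T : Finset (HeightOneSpectrum (𝓞 K)))
    (hT : ∀ v ∈ T, Semi g F v ∧ zv (2 * g + 2) v F ≠ 2 * g + 2)
    (G : Finset (HeightOneSpectrum (𝓞 K))) (hG : ∀ v ∈ G, v ∈ oddv e ∧ Semi g F v) :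
    (∑ v ∈ T, Real.log (nv v)) + ∑ v ∈ G, Real.log (nv v) ≤ Real.log (cond g F e) := by
  classical
  set O := (oddv_finite he).toFinset with hO
  have hOm : ∀ v, v ∈ O ↔ v ∈ oddv e := fun v => by rw [hO, Set.Finite.mem_toFinset]
  set W := (finite_above hz).toFinset with hW
  have hWm : ∀ v : HeightOneSpectrum (𝓞 K), v ∉ W → zv (2 * g + 2) v F = 2 * g + 2 := fun v h =>
    hzv v fun h2 => h (by rw [hW, Set.Finite.mem_toFinset]; exact h2)
  set S := O ∪ W with hS
  have hsupp : Function.mulSupport (fun v : HeightOneSpectrum (𝓞 K) => nv v ^ expo g F e v) ⊆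
      S := by
    intro v hv
    by_contra hcon
    rw [hS, mem_coe, mem_union, not_or, hOm] at hcon
    obtain ⟨h1, h2⟩ := hcon
    apply hv
    show nv v ^ expo g F e v = 1
    have h4 : expo g F e v = 0 := by
      unfold expo
      rw [if_neg h1, if_pos (hWm v h2)]
      split_ifs <;> rfl
    rw [h4, pow_zero]
  have hTS : T ⊆ S := by
    intro v hv
    rw [hS, mem_union]
    by_contra hcon
    rw [not_or] at hcon
    exact (hT v hv).2 (hWm v hcon.2)
  have hGS : G ⊆ S := by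
    intro v hv
    rw [hS, mem_union, hOm]
    exact Or.inl (hG v hv).1
  unfold cond
  rw [finprod_eq_prod_of_mulSupport_subset _ hsupp]
  push_cast
  rw [Real.log_prod fun v _ => pow_ne_zero _ (by exact_mod_cast nv_ne v)]
  have h1 : ∀ v ∈ S, (if v ∈ T then Real.log (nv v) else 0) +
      (if v ∈ G then Real.log (nv v) else 0) ≤ Real.log ((nv v : ℝ) ^ expo g F e v) := by
    intro v _
    rw [Real.log_pow]
    have hl := log_nv_pos v
    have hodd : v ∈ oddv e → Semi g F v →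
        2 * Real.log (nv v) ≤ (expo g F e v : ℝ) * Real.log (nv v) := by
      intro h6 h5
      have h7 : expo g F e v = 2 * g := by
        unfold expo
        rw [if_neg (not_not.2 h5), if_pos h6]
      rw [h7]
      have h8 : (2 : ℝ) ≤ ((2 * g : ℕ) : ℝ) := by exact_mod_cast (by omega : 2 ≤ 2 * g)
      exact mul_le_mul_of_nonneg_right h8 hl.le
    by_cases h2 : v ∈ T
    · obtain ⟨h5, h4⟩ := hT v h2
      rw [if_pos h2]
      by_cases h6 : v ∈ oddv e
      · have h7 := hodd h6 h5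
        split_ifs
        · linarith
        · linarith
      · rw [if_neg (fun h => h6 (hG v h).1), add_zero]
        have h7 : expo g F e v = 1 := by
          unfold expo
          rw [if_neg (not_not.2 h5), if_neg h6, if_neg h4]
        rw [h7]
        simp
    · rw [if_neg h2, zero_add]
      split_ifs with h6
      · obtain ⟨h8, h9⟩ := hG v h6
        have h7 := hodd h8 h9
        linarith
      · positivity
  refine le_trans (le_of_eq ?_) (sum_le_sum h1)
  rw [sum_add_distrib, ← sum_filter, ← sum_filter]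
  congr 1
  · congr 1
    ext v
    rw [mem_filter]
    exact ⟨fun h => ⟨hTS h, h⟩, fun h => h.2⟩
  · congr 1
    ext v
    rw [mem_filter]
    exact ⟨fun h => ⟨hGS h, h⟩, fun h => h.2⟩

/-- the nodal places -/
theorem nodal_places (Q : HeightOneSpectrum (𝓞 K) → Prop) {x m : 𝓞 K} (hx : x ≠ 0) (hm : m ≠ 0)
    (hv : ∀ v : HeightOneSpectrum (𝓞 K), x ∈ v.asIdeal → m ∉ v.asIdeal → Q v) {R : ℝ}
    (hR0 : 0 < R)
    (hR : R < ((∏ p ∈ (Nm x).primeFactors \ (Nm m).primeFactors, p : ℕ) : ℝ)) :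
    ∃ T : Finset (HeightOneSpectrum (𝓞 K)), (∀ v ∈ T, Q v) ∧
      Real.log R ≤ ∑ v ∈ T, Real.log (nv v) := by
  classical
  set Q1 := (Nm x).primeFactors \ (Nm m).primeFactors with hQ1
  have hQp : ∀ p ∈ Q1, p.Prime := fun p hp => by
    rw [hQ1, mem_sdiff] at hp
    exact Nat.prime_of_mem_primeFactors hp.1
  have hex : ∀ p ∈ Q1, ∃ v : HeightOneSpectrum (𝓞 K), (p : 𝓞 K) ∈ v.asIdeal ∧ Q v := by
    intro p hp
    have hpp := hQp p hp
    rw [hQ1, mem_sdiff] at hp
    obtain ⟨v, hv1, hv2⟩ := exists_v hpp hx (Nat.dvd_of_mem_primeFactors hp.1)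
    refine ⟨v, hv1, hv v hv2 fun h => ?_⟩
    exact hp.2 (Nat.mem_primeFactors.2 ⟨hpp, p_dvd_Nm hpp hv1 h, Nm_ne hm⟩)
  rcases Q1.eq_empty_or_nonempty with h0 | ⟨p₀, hp₀⟩
  · refine ⟨∅, by simp, ?_⟩
    rw [h0, prod_empty] at hR
    rw [sum_empty]
    exact Real.log_nonpos hR0.le (by exact_mod_cast hR.le)
  have : Nonempty (HeightOneSpectrum (𝓞 K)) := by
    obtain ⟨v, -⟩ := hex p₀ hp₀
    exact ⟨v⟩
  choose! w hw1 hw2 using hex
  refine ⟨Q1.image w, ?_, ?_⟩
  · intro v hv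
    rw [mem_image] at hv
    obtain ⟨p, hp, rfl⟩ := hv
    exact hw2 p hp
  · refine (Real.log_le_log hR0 hR.le).trans ?_
    have hinj : Set.InjOn w Q1 := by
      intro p hp q hq hpq
      have h5 := hw1 p hp
      rw [hpq] at h5
      exact p_unique (hQp p hp) (hQp q hq) h5 (hw1 q hq)
    rw [sum_image hinj, Nat.cast_prod, Real.log_prod fun p hp => by
      exact_mod_cast (hQp p hp).ne_zero]
    refine sum_le_sum fun p hp => ?_
    have hpp := hQp p hp
    exact Real.log_le_log (by exact_mod_cast hpp.pos) (by exact_mod_cast p_le_nv hpp (hw1 p hp))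

/-- the conditions for one member -/
def GoodM (g : ℕ) (ε : ℝ) (H U E : ℕ) (F : (𝓞 K)[X]) : Prop :=
  zeros (2 * g + 2) (F.map (algebraMap (𝓞 K) K)) = 2 * g + 2 ∧
    (∃ m : 𝓞 K, m ≠ 0 ∧ Nm m ≤ U * H ^ E ∧ ∀ v : HeightOneSpectrum (𝓞 K), m ∉ v.asIdeal →
      Semi g F v ∧ zv (2 * g + 2) v F = 2 * g + 2) ∧
    ∃ T : Finset (HeightOneSpectrum (𝓞 K)),
      (∀ v ∈ T, Semi g F v ∧ zv (2 * g + 2) v F ≠ 2 * g + 2) ∧
      (1 - ε) * Real.log H ≤ ∑ v ∈ T, Real.log (nv v)

theorem coef_bound {n : ℕ} (F : (MvPolynomial (Fin n) (𝓞 K))[X]) : ∃ (B : ℝ) (A : ℕ), 0 ≤ B ∧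
    ∀ (b : Fin n → 𝓞 K) (M : ℝ), 1 ≤ M → Sz M b → ∀ σ : K →+* ℂ, ∀ i,
      ‖((member F b).map (em σ)).coeff i‖ ≤ B * M ^ A := by
  choose B A hB h using fun i => ev_bound (F.coeff i)
  refine ⟨∑ i ∈ range (F.natDegree + 1), B i, ∑ i ∈ range (F.natDegree + 1), A i,
    sum_nonneg fun i _ => hB i, fun b M hM hb σ i => ?_⟩
  unfold member
  rw [coeff_map, coeff_map]
  have hM0 : (0 : ℝ) ≤ M := by linarith
  have hS : 0 ≤ ∑ i ∈ range (F.natDegree + 1), B i := sum_nonneg fun i _ => hB i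
  by_cases hi : i ∈ range (F.natDegree + 1)
  · refine (h i b M hM hb σ).trans ?_
    exact mul_le_mul (single_le_sum (f := B) (fun i _ => hB i) hi)
      (pow_le_pow_right₀ hM (single_le_sum (f := A) (fun i _ => Nat.zero_le _) hi))
      (by positivity) hS
  · rw [mem_range, not_lt] at hi
    rw [coeff_eq_zero_of_natDegree_lt (by omega), map_zero, map_zero, norm_zero]
    positivity

theorem goodM_frey {n g : ℕ} (hg : 1 ≤ g) (F : (MvPolynomial (Fin n) (𝓞 K))[X])
    (hF : F.natDegree ≤ 2 * g + 2) (C₀ : ℝ) (hC₀ : 1 ≤ C₀) (ε : ℝ) (hε : ε < 1)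
    (U E : ℕ) (hU : 1 ≤ U) :
    ∃ κ C : ℝ, ∀ H : ℕ, 1 ≤ H → ∀ b : Fin n → 𝓞 K, Sz (C₀ * H) b →
      GoodM g ε H U E (member F b) → Frey g κ C (member F b) := by
  classical
  obtain ⟨Ca, hCa, harch⟩ := arch g (2 * g + 2)
  obtain ⟨B, A, hB, hcoef⟩ := coef_bound F
  set d := Module.finrank ℚ K with hd
  have hd0 : 1 ≤ d := Module.finrank_pos
  have hdR : (1 : ℝ) ≤ d := by exact_mod_cast hd0
  have hgR : (1 : ℝ) ≤ g := by exact_mod_cast hg
  have hlC : 0 ≤ Real.log C₀ := Real.log_nonneg hC₀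
  have hlB : 0 ≤ Real.log (B + 1) := Real.log_nonneg (by linarith)
  have hlU : 0 ≤ Real.log U := Real.log_natCast_nonneg _
  set a : ℝ := g / 2 * A + g / 2 * E with ha
  have ha0 : 0 ≤ a := by positivity
  have hε' : 0 < 1 - ε := by linarith
  refine ⟨a / (1 - ε) + g / 2, Ca + g / 2 * (Real.log (B + 1) + A * Real.log C₀) +
    g / 2 * Real.log U, fun H hH b hb hgood => ⟨hgood.1, fun e he => ?_⟩⟩
  obtain ⟨-, ⟨m, hm, hmU, hmv⟩, T, hT, hTs⟩ := hgood
  have hHR : (1 : ℝ) ≤ H := by exact_mod_cast hH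
  have hH0 : (0 : ℝ) < H := by linarith
  set L := Real.log H with hL
  have hL0 : 0 ≤ L := Real.log_nonneg hHR
  have hM : 1 ≤ C₀ * H := by nlinarith
  have hM0 : 0 < C₀ * H := by linarith
  have hlM : Real.log (C₀ * H) = Real.log C₀ + L := Real.log_mul (by positivity) hH0.ne'
  have hM' : 1 ≤ (B + 1) * (C₀ * H) ^ A := by
    have := one_le_pow₀ hM (n := A)
    nlinarith
  have hlM' : Real.log ((B + 1) * (C₀ * H) ^ A) =
      Real.log (B + 1) + A * (Real.log C₀ + L) := by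
    rw [Real.log_mul (by positivity) (by positivity), Real.log_pow, hlM]
  have hone : ∀ σ : K →+* ℂ, -(1 / 2) * Real.log (vol g ((member F b).map (em σ))) ≤
      Ca + g / 2 * (Real.log (B + 1) + A * (Real.log C₀ + L)) := by
    intro σ
    rw [← hlM']
    refine harch _ ((natDegree_map_le).trans ((natDegree_map_le).trans hF)) _ hM' fun i => ?_
    refine (hcoef b _ hM hb σ i).trans ?_
    have : (0 : ℝ) ≤ (C₀ * H) ^ A := by positivity
    nlinarith
  have hsum : ∑ σ : K →+* ℂ, -(1 / 2) * Real.log (vol g ((member F b).map (em σ))) ≤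
      d * (Ca + g / 2 * (Real.log (B + 1) + A * (Real.log C₀ + L))) := by
    refine (sum_le_card_nsmul _ _ _ fun σ _ => hone σ).trans ?_
    rw [card_univ, Embeddings.card, nsmul_eq_mul]
  set O := (oddv_finite he).toFinset with hO
  have hOm : ∀ v, v ∈ O ↔ v ∈ oddv e := fun v => by rw [hO, Set.Finite.mem_toFinset]
  set G := O.filter fun v => m ∉ v.asIdeal with hG
  set Ms := O.filter fun v => ¬ (m ∉ v.asIdeal) with hMs
  have hsplit : ∑ v ∈ G, Real.log (nv v) + ∑ v ∈ Ms, Real.log (nv v) =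
      ∑ v ∈ O, Real.log (nv v) := sum_filter_add_sum_filter_not _ _ _
  have hMle : ∑ v ∈ Ms, Real.log (nv v) ≤ Real.log U + E * L := by
    refine (sum_log_const hm Ms fun v hv => not_not.1 (mem_filter.1 hv).2).trans ?_
    have hNm : 0 < Nm m := Nat.pos_of_ne_zero (Nm_ne hm)
    have h1 : ((Nm m : ℕ) : ℝ) ≤ U * (H : ℝ) ^ E := by exact_mod_cast hmU
    refine (Real.log_le_log (by exact_mod_cast hNm) h1).trans (le_of_eq ?_)
    rw [Real.log_mul (by positivity) (by positivity), Real.log_pow]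
  have hG0 : 0 ≤ ∑ v ∈ G, Real.log (nv v) := sum_nonneg fun v _ => (log_nv_pos v).le
  have htc := cond_ge hg (member F b) hm (fun v hv => (hmv v hv).2) he T hT G fun v hv => by
    rw [hG, mem_filter, hOm] at hv
    exact ⟨hv.1, (hmv v hv.2).1⟩
  unfold height
  rw [finsum_mem_eq_finite_toFinset_sum _ (oddv_finite he), ← hO, ← hsplit]
  set SG := ∑ v ∈ G, Real.log (nv v) with hSG
  set SM := ∑ v ∈ Ms, Real.log (nv v) with hSM
  set ST := ∑ v ∈ T, Real.log (nv v) with hST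
  have e1 : (d : ℝ)⁻¹ * ((∑ σ : K →+* ℂ, -(1 / 2) * Real.log (vol g ((member F b).map (em σ)))) +
      g / 2 * (SG + SM)) ≤ (Ca + g / 2 * (Real.log (B + 1) + A * (Real.log C₀ + L))) +
        g / 2 * (SG + (Real.log U + E * L)) := by
    rw [inv_mul_le_iff₀ (by linarith)]
    have f1 : (g : ℝ) / 2 * (SG + SM) ≤ g / 2 * (SG + (Real.log U + E * L)) :=
      mul_le_mul_of_nonneg_left (by linarith) (by positivity)
    have f2 : 0 ≤ (g : ℝ) / 2 * (SG + (Real.log U + E * L)) := by positivity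
    nlinarith
  refine e1.trans ?_
  have e2 : (a / (1 - ε) + g / 2) * (ST + SG) ≤
      (a / (1 - ε) + g / 2) * Real.log (cond g (member F b) e) :=
    mul_le_mul_of_nonneg_left htc (by positivity)
  have e3 : a * L ≤ a / (1 - ε) * ST := by
    rw [div_mul_eq_mul_div, le_div_iff₀ hε', mul_assoc]
    refine mul_le_mul_of_nonneg_left ?_ ha0
    linarith
  have hT0 : 0 ≤ ST := sum_nonneg fun v _ => (log_nv_pos v).le
  have e4 : 0 ≤ (g : ℝ) / 2 * ST := by positivity
  have e5 : 0 ≤ a / (1 - ε) * SG := mul_nonneg (by positivity) hG0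
  have e6 : (a / (1 - ε) + g / 2) * (ST + SG) = a / (1 - ε) * ST +
      g / 2 * ST + a / (1 - ε) * SG + g / 2 * SG := by ring
  have e7 : a * L = g / 2 * A * L + g / 2 * E * L := by rw [ha]; ring
  nlinarith

end Pool.Agent.K4H5.EF
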