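import Pool.Agent.K4H5.EF.Det

/-!
The inequality of Frey for almost all members of a family.
-/

set_option autoImplicit false
set_option linter.unusedSectionVars false

open NumberField IsDedekindDomain Polynomial Finset

namespace Pool.Agent.K4H5.EF

open Pool.Agent.K4H5.HF (fp zeros nr nv em Nm oddv zv Dd Dd_map box box_size box_shift mem_box
  Nm_ne Nm_mul Nm_nat ph_zero)
open Pool.Agent.K4H5.PC (Sz shi)

variable {K : Type} [Field K] [NumberField K] {n : ℕ}

section geom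

/-- evaluation at a point over the algebraic closure -/
noncomputable def gh (b : Fin n → AlgebraicClosure K) :
    MvPolynomial (Fin n) (𝓞 K) →+* AlgebraicClosure (AlgebraicClosure K) :=
  MvPolynomial.eval₂Hom
    (((algebraMap (AlgebraicClosure K) (AlgebraicClosure (AlgebraicClosure K))).comp
      (algebraMap K (AlgebraicClosure K))).comp (algebraMap (𝓞 K) K))
    (fun i => algebraMap (AlgebraicClosure K) (AlgebraicClosure (AlgebraicClosure K)) (b i))

theorem gh_map (F : (MvPolynomial (Fin n) (𝓞 K))[X]) (b : Fin n → AlgebraicClosure K) :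
    (geomMember F b).map (algebraMap (AlgebraicClosure K) (AlgebraicClosure (AlgebraicClosure K))) =
      F.map (gh b) := by
  unfold geomMember gh
  rw [Polynomial.map_map]
  congr 1
  apply MvPolynomial.ringHom_ext
  · intro a
    simp
  · intro i
    simp

theorem exists_a (F : (MvPolynomial (Fin n) (𝓞 K))[X]) (b₀ b₁ : Fin n → AlgebraicClosure K)
    (h0 : geomMember F b₀ ≠ 0) (h1 : geomMember F b₁ ≠ 0) : ∃ a : ℕ,
      (F.map (gh b₀)).eval (a : AlgebraicClosure (AlgebraicClosure K)) ≠ 0 ∧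
      (F.map (gh b₁)).eval (a : AlgebraicClosure (AlgebraicClosure K)) ≠ 0 := by
  have h : (F.map (gh b₀)) * (F.map (gh b₁)) ≠ 0 := by
    rw [← gh_map, ← gh_map]
    exact mul_ne_zero
      ((Polynomial.map_ne_zero_iff (algebraMap (AlgebraicClosure K)
        (AlgebraicClosure (AlgebraicClosure K))).injective).2 h0)
      ((Polynomial.map_ne_zero_iff (algebraMap (AlgebraicClosure K)
        (AlgebraicClosure (AlgebraicClosure K))).injective).2 h1)
  by_contra hcon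
  push Not at hcon
  apply h
  apply Polynomial.eq_zero_of_infinite_isRoot
  apply Set.Infinite.mono (s := Set.range
    (fun a : ℕ => (a : AlgebraicClosure (AlgebraicClosure K))))
  · rintro _ ⟨a, rfl⟩
    show eval _ _ = 0
    rw [eval_mul]
    by_cases h2 : (F.map (gh b₀)).eval (a : AlgebraicClosure (AlgebraicClosure K)) = 0
    · rw [h2, zero_mul]
    · rw [hcon a h2, mul_zero]
  · exact Set.infinite_range_of_injective Nat.cast_injective

/-- the algebraic data of a family -/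
theorem data {g : ℕ} (hg : 1 ≤ g) (F : (MvPolynomial (Fin n) (𝓞 K))[X])
    (hF : F.natDegree ≤ 2 * g + 2) (b₀ b₁ : Fin n → AlgebraicClosure K)
    (h0 : NoTriple (2 * g + 2) (geomMember F b₀))
    (h0' : zeros (2 * g + 2) (geomMember F b₀) ≠ 2 * g + 2)
    (h1 : zeros (2 * g + 2) (geomMember F b₁) = 2 * g + 2) :
    ∃ (a s : ℕ) (P Q U V r : MvPolynomial (Fin n) (𝓞 K)) (k : 𝓞 K) (j : Fin n), k ≠ 0 ∧
      MvPolynomial.C k * Dd (cf (2 * g + 2) a F) = P * Q ∧ (ph (𝓞 K) j P).natDegree ≠ 0 ∧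
      r ≠ 0 ∧ (ph (𝓞 K) j r).natDegree = 0 ∧
      r = U * P + V * (cf (2 * g + 2) a F (Fin.last _) * Ss s (cf (2 * g + 2) a F)) ∧
      Dd (cf (2 * g + 2) a F) ≠ 0 ∧ cf (2 * g + 2) a F (Fin.last _) ≠ 0 := by
  have hb1 : geomMember F b₁ ≠ 0 := by
    intro h
    rw [h] at h1
    unfold zeros nr at h1
    simp at h1
  obtain ⟨a, ha0, ha1⟩ := exists_a F b₀ b₁ h0.1 hb1
  have hdeg : ∀ b, (geomMember F b).natDegree ≤ 2 * g + 2 := fun b =>
    (natDegree_map_le).trans hF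
  have hcf : ∀ b, cf (2 * g + 2) a ((geomMember F b).map (algebraMap (AlgebraicClosure K)
      (AlgebraicClosure (AlgebraicClosure K)))) =
      fun i => gh b (cf (2 * g + 2) a F i) := fun b => by
    rw [gh_map, cf_map]
  have hc : ∀ b, (F.map (gh b)).eval (a : AlgebraicClosure (AlgebraicClosure K)) ≠ 0 →
      ((2 * g + 2 : ℕ) : AlgebraicClosure (AlgebraicClosure K)) *
        cf (2 * g + 2) a ((geomMember F b).map (algebraMap (AlgebraicClosure K)
          (AlgebraicClosure (AlgebraicClosure K)))) (Fin.last _) ≠ 0 := fun b hb => by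
    rw [cf_last, gh_map]
    exact mul_ne_zero (by exact_mod_cast (by omega : 2 * g + 2 ≠ 0)) hb
  have hc0 := hc b₀ ha0
  have hc1 := hc b₁ ha1
  have hlast : ∀ b, gh b (cf (2 * g + 2) a F (Fin.last _)) =
      (F.map (gh b)).eval (a : AlgebraicClosure (AlgebraicClosure K)) := fun b => by
    exact (congrFun (cf_map (gh b) (2 * g + 2) a F) (Fin.last _)).trans (cf_last _ _ _)
  -- the nodal member
  rw [Ne, zeros_iff (by omega) a _ (hdeg b₀) hc0, not_not, hcf, ← Dd_map] at h0'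
  rw [noTriple_iff (by omega) a _ (hdeg b₀) hc0] at h0
  obtain ⟨s, hs⟩ := exists_Ss (by omega) _ hc0 h0
  rw [hcf, ← Ss_map] at hs
  -- the smooth member
  rw [zeros_iff (by omega) a _ (hdeg b₁) hc1, hcf, ← Dd_map] at h1
  have hD : Dd (cf (2 * g + 2) a F) ≠ 0 := fun h => h1 (by rw [h, map_zero])
  have hl : cf (2 * g + 2) a F (Fin.last _) ≠ 0 := fun h => ha0 (by
    rw [← hlast, h, map_zero])
  obtain ⟨P, Q, U, V, r, k, j, e1, e2, e3, e4, e5, e6⟩ := elim_R K
    ((algebraMap (AlgebraicClosure K) (AlgebraicClosure (AlgebraicClosure K))).comp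
      (algebraMap K (AlgebraicClosure K)))
    (fun i => algebraMap (AlgebraicClosure K) (AlgebraicClosure (AlgebraicClosure K)) (b₀ i))
    (Dd (cf (2 * g + 2) a F)) (cf (2 * g + 2) a F (Fin.last _) * Ss s (cf (2 * g + 2) a F)) hD
    h0' (by
      show gh b₀ _ ≠ 0
      rw [map_mul]
      exact mul_ne_zero (by rw [hlast]; exact ha0) hs)
  exact ⟨a, s, P, Q, U, V, r, k, j, e1, e2, e3, e4, e5, e6, hD, hl⟩

end geom

/-- the members with good conditions -/
theorem good_of {g : ℕ} (hg : 1 ≤ g) (F : (MvPolynomial (Fin n) (𝓞 K))[X])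
    (hF : F.natDegree ≤ 2 * g + 2) {a s : ℕ} {P Q U V r : MvPolynomial (Fin n) (𝓞 K)} {k : 𝓞 K}
    (hk : MvPolynomial.C k * Dd (cf (2 * g + 2) a F) = P * Q)
    (hr : r = U * P + V * (cf (2 * g + 2) a F (Fin.last _) * Ss s (cf (2 * g + 2) a F)))
    {ε : ℝ} {H U' E : ℕ} (hH : 1 ≤ H) (b : Fin n → 𝓞 K)
    (hD : MvPolynomial.eval b (Dd (cf (2 * g + 2) a F)) ≠ 0)
    (hl : MvPolynomial.eval b (cf (2 * g + 2) a F (Fin.last _)) ≠ 0)
    (hP : MvPolynomial.eval b P ≠ 0)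
    (hm : MvPolynomial.eval b
      (MvPolynomial.C (((2 * (2 * g + 2) : ℕ) : 𝓞 K) * k) * r) ≠ 0)
    (hNm : Nm (MvPolynomial.eval b (MvPolynomial.C ((2 * (2 * g + 2) : ℕ) : 𝓞 K) *
      cf (2 * g + 2) a F (Fin.last _) * Dd (cf (2 * g + 2) a F))) ≤ U' * H ^ E)
    (hrad : (H : ℝ) ^ (1 - ε) < ((∏ p ∈ (Nm (MvPolynomial.eval b P)).primeFactors \
      (Nm (MvPolynomial.eval b
        (MvPolynomial.C (((2 * (2 * g + 2) : ℕ) : 𝓞 K) * k) * r))).primeFactors, p : ℕ) : ℝ)) :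
    GoodM g ε H U' E (member F b) := by
  have hH0 : (0 : ℝ) < H := by exact_mod_cast hH
  refine ⟨smooth_K hg a F hF b hl hD, ⟨_, ?_, hNm, ?_⟩, ?_⟩
  · rw [map_mul, map_mul, MvPolynomial.eval_C]
    exact mul_ne_zero (mul_ne_zero (by exact_mod_cast (by omega : 2 * (2 * g + 2) ≠ 0)) hl) hD
  · intro v hv
    rw [map_mul, map_mul, MvPolynomial.eval_C] at hv
    exact good_at hg a F hF b v
      (fun h => hv (v.asIdeal.mul_mem_right _ (v.asIdeal.mul_mem_right _ h)))
      (fun h => hv (v.asIdeal.mul_mem_right _ (v.asIdeal.mul_mem_left _ h)))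
      (fun h => hv (v.asIdeal.mul_mem_left _ h))
  · obtain ⟨T, hT, hTs⟩ := nodal_places (fun v => Semi g (member F b) v ∧
      zv (2 * g + 2) v (member F b) ≠ 2 * g + 2) hP hm (fun v hv1 hv2 => by
        rw [map_mul, MvPolynomial.eval_C] at hv2
        have h1 : ((2 * (2 * g + 2) : ℕ) : 𝓞 K) ∉ v.asIdeal := fun h =>
          hv2 (v.asIdeal.mul_mem_right _ (v.asIdeal.mul_mem_right _ h))
        have h2 : k ∉ v.asIdeal := fun h =>
          hv2 (v.asIdeal.mul_mem_right _ (v.asIdeal.mul_mem_left _ h))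
        have h3 : MvPolynomial.eval b r ∉ v.asIdeal := fun h =>
          hv2 (v.asIdeal.mul_mem_left _ h)
        refine nodal_at hg a F hF b v s h1 (fun h => h3 ?_) ?_
        · rw [hr, map_add, map_mul, map_mul]
          exact v.asIdeal.add_mem (v.asIdeal.mul_mem_left _ hv1) (v.asIdeal.mul_mem_left _ h)
        · have h4 := congrArg (MvPolynomial.eval b) hk
          rw [map_mul, MvPolynomial.eval_C, map_mul] at h4
          have h5 : k * MvPolynomial.eval b (Dd (cf (2 * g + 2) a F)) ∈ v.asIdeal := by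
            rw [h4]
            exact v.asIdeal.mul_mem_right _ hv1
          exact (v.isPrime.mem_or_mem h5).resolve_left h2)
      (Real.rpow_pos_of_pos hH0 _) hrad
    refine ⟨T, hT, ?_⟩
    rw [← Real.log_rpow hH0]
    exact hTs

theorem main (K : Type) [Field K] [NumberField K] {n g : ℕ} (hg : 1 ≤ g)
    (F : (MvPolynomial (Fin n) (𝓞 K))[X]) (hF : F.natDegree ≤ 2 * g + 2)
    (b₀ b₁ : Fin n → AlgebraicClosure K) (h0 : NoTriple (2 * g + 2) (geomMember F b₀))
    (h0' : zeros (2 * g + 2) (geomMember F b₀) ≠ 2 * g + 2)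
    (h1 : zeros (2 * g + 2) (geomMember F b₁) = 2 * g + 2)
    (δ : ℝ) (hδ0 : 0 ≤ δ) (hδ : δ < 1) :
    ∃ κ C : ℝ, ∀ H : ℕ, 1 ≤ H → ∀ B : Finset (Fin n → 𝓞 K),
      (∀ b ∈ B, (∀ i, b i ∈ box K H) ∧ ¬ Frey g κ C (member F b)) →
      (B.card : ℝ) ≤ C * (H : ℝ) ^ ((Fintype.card (Fin n) * Module.finrank ℚ K : ℕ) - δ : ℝ) := by
  classical
  obtain ⟨a, s, P, Q, U, V, r, k, j, hk0, hk, hPd, hr0, hrd, hr, hD, hl⟩ :=
    data hg F hF b₀ b₁ h0 h0' h1
  obtain ⟨C₀, hC₀, hsize⟩ := box_size K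
  obtain ⟨A, hA1, hA⟩ := box_shift K
  have hAR : (1 : ℝ) ≤ A := by exact_mod_cast hA1
  have hCA : 1 ≤ C₀ * A := by nlinarith
  set ε : ℝ := (1 + δ) / 2 with hε
  have hδε : δ < ε := by rw [hε]; linarith
  have hε1 : ε < 1 := by rw [hε]; linarith
  set d := Module.finrank ℚ K with hd
  set N := Fintype.card (Fin n) * d with hN
  -- the polynomials
  set c₁ : 𝓞 K := ((2 * (2 * g + 2) : ℕ) : 𝓞 K) * k with hc₁
  have hc₁0 : c₁ ≠ 0 := mul_ne_zero (by exact_mod_cast (by omega : 2 * (2 * g + 2) ≠ 0)) hk0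
  set m : MvPolynomial (Fin n) (𝓞 K) := MvPolynomial.C c₁ * r with hm
  have hC0 : (MvPolynomial.C c₁ : MvPolynomial (Fin n) (𝓞 K)) ≠ 0 := by
    rwa [Ne, MvPolynomial.C_eq_zero]
  have hm0 : m ≠ 0 := mul_ne_zero hC0 hr0
  have hmd : (ph (𝓞 K) j m).natDegree = 0 := by
    rw [hm, map_mul, ph_C, natDegree_C_mul]
    · exact hrd
    · rwa [Ne, MvPolynomial.C_eq_zero]
  set lc := (ph (𝓞 K) j P).leadingCoeff with hlc
  have hlc0 : lc ≠ 0 := by
    rw [hlc, Ne, leadingCoeff_eq_zero]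
    intro h
    rw [h, natDegree_zero] at hPd
    exact hPd rfl
  set l' : MvPolynomial (Fin n) (𝓞 K) := (ph (𝓞 K) j).symm (C lc) with hl'
  have hl'0 : l' ≠ 0 := by
    intro h
    have h1 := congrArg (ph (𝓞 K) j) h
    rw [hl', AlgEquiv.apply_symm_apply, map_zero] at h1
    exact hlc0 (C_eq_zero.1 h1)
  have hl'e : ∀ b : Fin n → 𝓞 K, MvPolynomial.eval b l' =
      MvPolynomial.eval (fun i : {i // i ≠ j} => b i) lc := by
    intro b
    rw [ph_eval j, hl', AlgEquiv.apply_symm_apply, map_C, eval_C]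
  set Gd : MvPolynomial (Fin n) (𝓞 K) := MvPolynomial.C ((2 * (2 * g + 2) : ℕ) : 𝓞 K) *
      cf (2 * g + 2) a F (Fin.last _) * Dd (cf (2 * g + 2) a F) with hGd
  obtain ⟨U', E, hU', hUE⟩ := ev_nm' Gd C₀ hC₀
  obtain ⟨C₁, hC₁, hcount⟩ := rad_count P m j hPd (C₀ * A) hCA ε δ hδε hδ.le
  obtain ⟨κ, Ca, ha⟩ := goodM_frey hg F hF C₀ hC₀ ε hε1 U' E hU'
  obtain ⟨C₂, hC₂, h2⟩ := avg_gen K j (m * l') (mul_ne_zero hm0 hl'0) A hA hA1 δ hδ.le C₁ hC₁.le
  obtain ⟨C₃, hC₃, h3⟩ := zeros_box K (m * (cf (2 * g + 2) a F (Fin.last _) *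
    Dd (cf (2 * g + 2) a F))) (mul_ne_zero hm0 (mul_ne_zero hl hD))
  refine ⟨κ, max Ca (C₂ + C₃), fun H hH B hB => ?_⟩
  have hHR : (1 : ℝ) ≤ H := by exact_mod_cast hH
  have hH0 : (0 : ℝ) < H := by linarith
  have hSz : ∀ c : Fin n → 𝓞 K, (∀ i, c i ∈ box K (A * H)) → Sz (C₀ * A * H) c := by
    intro c hc i σ
    have := hsize (A * H) (c i) (hc i) σ
    push_cast at this
    rw [mul_assoc]
    exact this
  set bad : (Fin n → 𝓞 K) → Prop := fun b => MvPolynomial.eval b P = 0 ∨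
    ((∏ p ∈ (Nm (MvPolynomial.eval b P)).primeFactors \
      (Nm (MvPolynomial.eval b m)).primeFactors, p : ℕ) : ℝ) ≤ (H : ℝ) ^ (1 - ε) with hbad
  set B₁ := B.filter bad with hB₁
  set B₂ := B.filter fun b => MvPolynomial.eval b (m * (cf (2 * g + 2) a F (Fin.last _) *
    Dd (cf (2 * g + 2) a F))) = 0 with hB₂
  set P₀ : ℝ := (H : ℝ) ^ ((N : ℕ) - δ : ℝ) with hP₀
  have hP0 : 0 < P₀ := by positivity
  have g1 : (B₁.card : ℝ) ≤ C₂ * P₀ := by
    refine h2 H hH bad ?_ B₁ ?_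
    · intro c hc hcm Z hZ
      rw [map_mul] at hcm
      refine hcount H hH c (hSz c hc) (left_ne_zero_of_mul hcm) ?_ Z fun t ht => ?_
      · rw [← hl'e]
        exact right_ne_zero_of_mul hcm
      · refine ⟨(hZ t ht).1, ?_⟩
        have h4 := (hZ t ht).2
        rw [hbad] at h4
        simp only [ev_inv j m hmd] at h4
        exact h4
    · intro c hc
      rw [hB₁, mem_filter] at hc
      exact ⟨(hB c hc.1).1, hc.2⟩
  have g3 : (B₂.card : ℝ) ≤ C₃ * P₀ := by
    have e1 := h3 H hH B₂ fun c hc => by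
      rw [hB₂, mem_filter] at hc
      exact ⟨(hB c hc.1).1, hc.2⟩
    have e2 : (H : ℝ) ^ N / H ≤ P₀ := by
      rw [hP₀, ← Real.rpow_natCast, ← Real.rpow_sub_one hH0.ne']
      exact Real.rpow_le_rpow_of_exponent_le hHR (by linarith)
    rw [← le_div_iff₀ hH0, mul_div_assoc] at e1
    exact e1.trans (mul_le_mul_of_nonneg_left e2 hC₃)
  have hsub : B ⊆ B₁ ∪ B₂ := by
    intro b hb
    rw [mem_union, hB₁, hB₂, mem_filter, mem_filter]
    by_contra hcon
    rw [not_or, not_and, not_and] at hcon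
    obtain ⟨k1, k2⟩ := hcon
    have k1' := k1 hb
    have k2' := k2 hb
    rw [hbad] at k1'
    simp only [not_or, not_le] at k1'
    rw [map_mul (MvPolynomial.eval b) m,
      map_mul (MvPolynomial.eval b) (cf (2 * g + 2) a F (Fin.last _))] at k2'
    have hbS : Sz (C₀ * H) b := fun i σ => hsize H (b i) ((hB b hb).1 i) σ
    have hgood : GoodM g ε H U' E (member F b) :=
      good_of hg F hF hk hr hH b (right_ne_zero_of_mul (right_ne_zero_of_mul k2'))
        (left_ne_zero_of_mul (right_ne_zero_of_mul k2')) k1'.1 (left_ne_zero_of_mul k2')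
        (hUE H hH b hbS) k1'.2
    obtain ⟨f1, f2⟩ := ha H hH b hbS hgood
    refine (hB b hb).2 ⟨f1, fun e he => (f2 e he).trans ?_⟩
    have := le_max_left Ca (C₂ + C₃)
    linarith
  have g4 : (B.card : ℝ) ≤ B₁.card + B₂.card := by
    have := (card_le_card hsub).trans (card_union_le _ _)
    exact_mod_cast this
  calc (B.card : ℝ) ≤ (C₂ + C₃) * P₀ := by linarith
    _ ≤ max Ca (C₂ + C₃) * P₀ := mul_le_mul_of_nonneg_right (le_max_right _ _) hP0.le

end Pool.Agent.K4H5.EF
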